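import Pool.Agent.H68.SLF.Defs

/-! The counting trick, and the level C relations (module M2). -/

set_option autoImplicit false

namespace Pool.Agent.H68.SLF

/-- words for the elements `uu x y` of the radical of `P2` of logarithmic length which can be added
in linear space -/
structure RadW (W : ℤ → ℤ → List Lt) (C L₁ : ℕ) : Prop where
  ev_W : ∀ x y, ev (W x y) = uu x y
  zero : W 0 0 = []
  len_W : ∀ x y n, x.natAbs < 2 ^ n → y.natAbs < 2 ^ n → (W x y).length ≤ C * (n + 1)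
  add : ∀ L ≥ L₁, ∀ x y x' y' n, x.natAbs < 2 ^ n → y.natAbs < 2 ^ n → x'.natAbs < 2 ^ n →
    y'.natAbs < 2 ^ n → H L (C * (n + 1)) (W x y ++ W x' y') (W (x + x') (y + y'))

/-- the elementary matrix `e_12(x)` -/
def e12 (x : ℤ) : G := ⟨!![1, x, 0; 0, 1, 0; 0, 0, 1], by simp [Matrix.det_fin_three]⟩

/-- `E x` is a word for `e_12(x)`, `W x y` a word for `uu x y` -/
structure LevC (W : ℤ → ℤ → List Lt) (E : ℤ → List Lt) (C L₂ : ℕ) : Prop where
  ev_W : ∀ x y, ev (W x y) = uu x y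
  ev_E : ∀ x, ev (E x) = e12 x
  W_zero : W 0 0 = []
  E_zero : E 0 = []
  len_W : ∀ x y n, x.natAbs < 2 ^ n → y.natAbs < 2 ^ n → (W x y).length ≤ C * (n + 1)
  len_E : ∀ x n, x.natAbs < 2 ^ n → (E x).length ≤ C * (n + 1)
  W_add : ∀ L ≥ L₂, ∀ x y x' y' n, x.natAbs < 2 ^ n → y.natAbs < 2 ^ n → x'.natAbs < 2 ^ n →
    y'.natAbs < 2 ^ n → H L (C * (n + 1)) (W x y ++ W x' y') (W (x + x') (y + y'))
  E_add : ∀ L ≥ L₂, ∀ x x' n, x.natAbs < 2 ^ n → x'.natAbs < 2 ^ n →
    H L (C * (n + 1)) (E x ++ E x') (E (x + x'))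
  /-- `e_12(x) uu(a,b) = uu(a+x b, b) e_12(x)` -/
  E_W : ∀ L ≥ L₂, ∀ x a b n, x.natAbs < 2 ^ n → a.natAbs < 2 ^ n → b.natAbs < 2 ^ n →
    H L (C * (n + 1)) (E x ++ W a b) (W (a + x * b) b ++ E x)
  /-- a letter `s` in `P2` normalises the radical -/
  L_W : ∀ L ≥ L₂, ∀ (s : Lt), s.1 ∈ P2 → ∀ a b a' b' n, a.natAbs < 2 ^ n → b.natAbs < 2 ^ n →
    s.1 * uu a b = uu a' b' * s.1 → H L (C * (n + 1)) (s :: W a b) (W a' b' ++ [s])
  /-- a letter `s` with `s e_12(1) s⁻¹ = e_12(ε)` -/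
  L_E : ∀ L ≥ L₂, ∀ (s : Lt) (ε : ℤ), ε.natAbs ≤ 1 → s.1 * e12 1 = e12 ε * s.1 → ∀ x n,
    x.natAbs < 2 ^ n → H L (C * (n + 1)) (s :: E x) (E (ε * x) ++ [s])

/-! ### matrices -/

lemma uu_mul (x y x' y' : ℤ) : uu x y * uu x' y' = uu (x + x') (y + y') := by
  apply Subtype.ext
  ext i j
  fin_cases i <;> fin_cases j <;>
    simp [uu, Matrix.mul_apply, Fin.sum_univ_three, add_comm]

lemma uu_zero : uu 0 0 = 1 := by
  apply Subtype.ext
  ext i j
  fin_cases i <;> fin_cases j <;> simp [uu]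

lemma e12_mul (x y : ℤ) : e12 x * e12 y = e12 (x + y) := by
  apply Subtype.ext
  ext i j
  fin_cases i <;> fin_cases j <;>
    simp [e12, Matrix.mul_apply, Fin.sum_univ_three, add_comm]

lemma e12_zero : e12 0 = 1 := by
  apply Subtype.ext
  ext i j
  fin_cases i <;> fin_cases j <;> simp [e12]

lemma e12_inv (x : ℤ) : (e12 x)⁻¹ = e12 (-x) := by
  rw [inv_eq_iff_mul_eq_one, e12_mul]; simp [e12_zero]

lemma uu_inv (x y : ℤ) : (uu x y)⁻¹ = uu (-x) (-y) := by
  rw [inv_eq_iff_mul_eq_one, uu_mul]; simp [uu_zero]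

lemma e12_uu (x a b : ℤ) : e12 x * uu a b = uu (a + x * b) b * e12 x := by
  apply Subtype.ext
  ext i j
  fin_cases i <;> fin_cases j <;>
    simp [e12, uu, Matrix.mul_apply, Fin.sum_univ_three]

/-! ### the counting trick -/

lemma H.chain {L n : ℕ} (f : ℕ → List Lt) (N : ℕ) (h : ∀ m < N, H L n (f m) (f (m + 1))) :
    H L n (f 0) (f N) := by
  induction N with
  | zero => exact H.refl _
  | succ N ih => exact (ih fun m hm => h m (by omega)).trans (h N (by omega))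

/-- one parameter families of words which can be added in linear space -/
structure OneP (F : ℤ → List Lt) (C L₁ : ℕ) : Prop where
  zero : F 0 = []
  len : ∀ x n, x.natAbs < 2 ^ n → (F x).length ≤ C * (n + 1)
  add : ∀ L ≥ L₁, ∀ x y n, x.natAbs < 2 ^ n → y.natAbs < 2 ^ n →
    H L (C * (n + 1)) (F x ++ F y) (F (x + y))

lemma natAbs_chain {x σ : ℤ} (hσ : x = σ * (x.natAbs : ℤ)) (h1 : σ.natAbs = 1) {m n : ℕ}
    (hx : x.natAbs < 2 ^ n) (hm : m ≤ x.natAbs) :
    (σ * (m : ℤ)).natAbs < 2 ^ n ∧ (x - σ * (m : ℤ)).natAbs < 2 ^ n := by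
  have h2 : (σ * (m : ℤ)).natAbs = m := by rw [Int.natAbs_mul, h1]; simp
  have h3 : (x - σ * (m : ℤ)).natAbs = x.natAbs - m := by
    have : x - σ * (m : ℤ) = σ * ((x.natAbs : ℤ) - m) := by rw [mul_sub, ← hσ]
    rw [this, Int.natAbs_mul, h1]
    omega
  omega

lemma exists_sign (x : ℤ) : ∃ σ : ℤ, x = σ * (x.natAbs : ℤ) ∧ σ.natAbs = 1 := by
  rcases le_total 0 x with h | h
  · exact ⟨1, by omega, rfl⟩
  · exact ⟨-1, by omega, rfl⟩

/-- the counting trick: a word `k` with `k F(±1) = F'(±1) k` can be moved across `F x` in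
logarithmic space -/
lemma count {F F' : ℤ → List Lt} {C C' L₁ L₁' : ℕ} (hF : OneP F C L₁) (hF' : OneP F' C' L₁')
    (k : List Lt) {c : ℕ} (hk : k.length ≤ c)
    {L : ℕ} (hL₁ : L₁ ≤ L) (hL₁' : L₁' ≤ L) (hL : c + 2 * C + 2 * C' ≤ L)
    (hev : ∀ σ : ℤ, σ.natAbs = 1 → ev (k ++ F σ) = ev (F' σ ++ k)) (x : ℤ) (n : ℕ)
    (hx : x.natAbs < 2 ^ n) :
    H L ((2 * C + 2 * C' + c) * (n + 1)) (k ++ F x) (F' x ++ k) := by
  obtain ⟨σ, hσ, h1⟩ := exists_sign x
  have hb : ∀ m ≤ x.natAbs, (σ * (m : ℤ)).natAbs < 2 ^ n ∧ (x - σ * (m : ℤ)).natAbs < 2 ^ n :=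
    fun m hm => natAbs_chain hσ h1 hx hm
  rcases Nat.eq_zero_or_pos x.natAbs with h0 | hpos
  · have : x = 0 := by omega
    subst this
    rw [hF.zero, hF'.zero]
    simpa using H.refl _
  have hn : 1 ≤ n := by
    by_contra h
    have : n = 0 := by omega
    subst this
    simp at hx
    omega
  have hσn : σ.natAbs < 2 ^ n := by
    rw [h1]; exact Nat.one_lt_two_pow (by omega)
  have hC : C ≤ C * (n + 1) := Nat.le_mul_of_pos_right _ (by omega)
  have hC' : C' ≤ C' * (n + 1) := Nat.le_mul_of_pos_right _ (by omega)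
  have hc : c ≤ c * (n + 1) := Nat.le_mul_of_pos_right _ (by omega)
  have hX : (2 * C + 2 * C' + c) * (n + 1) = 2 * (C * (n + 1)) + 2 * (C' * (n + 1)) +
    c * (n + 1) := by ring
  rw [hX]
  set X := C * (n + 1) with hXdef
  set X' := C' * (n + 1) with hX'def
  set Z := c * (n + 1) with hZdef
  -- lengths
  have l1 : (F σ).length ≤ X := hF.len σ n hσn
  have l2 : (F' σ).length ≤ X' := hF'.len σ n hσn
  have l1' : (F σ).length ≤ 2 * C := by
    have := hF.len σ 1 (by rw [h1]; norm_num)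
    omega
  have l2' : (F' σ).length ≤ 2 * C' := by
    have := hF'.len σ 1 (by rw [h1]; norm_num)
    omega
  have key := H.chain (L := L) (n := 2 * X + 2 * X' + Z)
    (fun m : ℕ => F' (σ * (m : ℤ)) ++ (k ++ F (x - σ * (m : ℤ)))) x.natAbs (by
    intro m hm
    obtain ⟨b1, b2⟩ := hb m hm.le
    obtain ⟨b3, b4⟩ := hb (m + 1) hm
    push_cast at b3 b4 ⊢
    have e1 : x - σ * (m : ℤ) = σ + (x - σ * ((m : ℤ) + 1)) := by ring
    have e2 : σ * ((m : ℤ) + 1) = σ * (m : ℤ) + σ := by ring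
    have s1 : H L X (F (x - σ * (m : ℤ))) (F σ ++ F (x - σ * ((m : ℤ) + 1))) := by
      have := (hF.add L hL₁ σ (x - σ * ((m : ℤ) + 1)) n hσn b4).symm
      rwa [← e1] at this
    have l3 := hF'.len _ n b1
    have l4 := hF.len _ n b4
    have l3' := hF'.len _ n b3
    -- step 1
    have t1 := s1.left (F' (σ * (m : ℤ)) ++ k) (m := 2 * X + 2 * X' + Z) (by
      simp only [List.length_append]; omega)
    -- step 2
    have s2 : H L (max (k.length + (F σ).length) ((F' σ).length + k.length)) (k ++ F σ)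
        (F' σ ++ k) := H.one (by simp only [List.length_append]; omega)
        (by simp only [List.length_append]; omega) (by simp only [List.length_append]; omega)
        (by simp only [List.length_append]; omega) (hev σ h1)
    have t2 := s2.ctx (F' (σ * (m : ℤ))) (F (x - σ * ((m : ℤ) + 1))) (m := 2 * X + 2 * X' + Z) (by
      omega)
    -- step 3
    have s3 : H L X' (F' (σ * (m : ℤ)) ++ F' σ) (F' (σ * ((m : ℤ) + 1))) := by
      have := hF'.add L hL₁' (σ * (m : ℤ)) σ n b1 hσn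
      rwa [← e2] at this
    have t3 := s3.right (k ++ F (x - σ * ((m : ℤ) + 1))) (m := 2 * X + 2 * X' + Z) (by
      simp only [List.length_append]; omega)
    simp only [List.append_assoc] at t1 t2 t3 ⊢
    exact t1.trans (t2.trans t3))
  simp only [← hσ, Nat.cast_zero, mul_zero, sub_zero, sub_self, hF.zero, hF'.zero,
    List.append_nil, List.nil_append] at key
  exact key

end Pool.Agent.H68.SLF
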