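import Pool.Agent.H68.SLF.Count

/-! Module M2: the level C relations follow from the radical words. -/

set_option autoImplicit false

namespace Pool.Agent.H68.SLF

lemma Bd_of {g h : G} (hg : ∀ i j, (g.1 i j).natAbs ≤ 3) (hh : ∀ i j, (h.1 i j).natAbs ≤ 3)
    (e : g * h = 1) : Bd g := by
  have : g⁻¹ = h := inv_eq_of_mul_eq_one_right e
  intro i j
  rw [this]
  exact ⟨hg i j, hh i j⟩

/-- the matrix exchanging (up to sign) the second and the third basis vector -/
def kapM : G := ⟨!![1, 0, 0; 0, 0, 1; 0, -1, 0], by simp [Matrix.det_fin_three]⟩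
def kapMi : G := ⟨!![1, 0, 0; 0, 0, -1; 0, 1, 0], by simp [Matrix.det_fin_three]⟩

lemma kap_mul : kapM * kapMi = 1 := by
  apply Subtype.ext
  ext i j
  fin_cases i <;> fin_cases j <;>
    simp [kapM, kapMi, Matrix.mul_apply, Fin.sum_univ_three]

lemma kap_inv : kapM⁻¹ = kapMi := inv_eq_of_mul_eq_one_right kap_mul

def kap : Lt := ⟨kapM, Bd_of (by intro i j; fin_cases i <;> fin_cases j <;> simp [kapM])
  (by intro i j; fin_cases i <;> fin_cases j <;> simp [kapMi]) kap_mul⟩

lemma kap_conj (x : ℤ) : kapM * (uu x 0 * kapM⁻¹) = e12 x := by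
  rw [kap_inv]
  apply Subtype.ext
  ext i j
  fin_cases i <;> fin_cases j <;>
    simp [kapM, kapMi, uu, e12, Matrix.mul_apply, Fin.sum_univ_three]

/-- the letter `e_12(σ)`, `|σ| = 1` -/
def e12L (σ : ℤ) (h : σ.natAbs = 1) : Lt := ⟨e12 σ, Bd_of (g := e12 σ) (h := e12 (-σ))
  (by intro i j; fin_cases i <;> fin_cases j <;> simp [e12]; omega)
  (by intro i j; fin_cases i <;> fin_cases j <;> simp [e12]; omega)
  (by rw [e12_mul]; simp [e12_zero])⟩

lemma uu_injective {a b a' b' : ℤ} (h : uu a b = uu a' b') : a = a' ∧ b = b' := by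
  have h1 := congrArg (fun g : G => g.1 0 2) h
  have h2 := congrArg (fun g : G => g.1 1 2) h
  simp [uu] at h1 h2
  exact ⟨h1, h2⟩

lemma P2_sq {s : G} (hs : s ∈ P2) : s.1 2 2 * s.1 2 2 = 1 := by
  obtain ⟨h0, h1⟩ := hs
  have hd := s.2
  rw [Matrix.det_fin_three] at hd
  simp only [h0, h1] at hd
  have hd' : s.1 2 2 * (s.1 0 0 * s.1 1 1 - s.1 0 1 * s.1 1 0) = 1 := by linarith
  have hu : IsUnit (s.1 2 2) := IsUnit.of_mul_eq_one _ hd'
  rcases Int.isUnit_iff.mp hu with h | h <;> rw [h] <;> norm_num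

lemma P2_uu {s : G} (hs : s ∈ P2) (x y : ℤ) :
    s * uu x y = uu (s.1 2 2 * (s.1 0 0 * x + s.1 0 1 * y))
      (s.1 2 2 * (s.1 1 0 * x + s.1 1 1 * y)) * s := by
  have h2 := P2_sq hs
  obtain ⟨h0, h1⟩ := hs
  apply Subtype.ext
  ext i j
  have e : ∀ t : ℤ, s.1 2 2 * t * s.1 2 2 = t := by
    intro t
    rw [mul_assoc, mul_comm t, ← mul_assoc, h2, one_mul]
  fin_cases i <;> fin_cases j <;>
    simp [uu, Matrix.mul_apply, Fin.sum_univ_three, h0, h1, e] <;> ring

section

variable {W : ℤ → ℤ → List Lt} {C L₁ : ℕ}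

lemma RadW.dir (h : RadW W C L₁) (p q : ℤ) (hp : p.natAbs < 2 ^ 4) (hq : q.natAbs < 2 ^ 4) :
    OneP (fun t => W (t * p) (t * q)) (C * 5) L₁ := by
  have hb : ∀ (t r : ℤ) (n : ℕ), r.natAbs < 2 ^ 4 → t.natAbs < 2 ^ n →
      (t * r).natAbs < 2 ^ (n + 4) := by
    intro t r n hr ht
    rw [Int.natAbs_mul, pow_add]
    exact Nat.mul_lt_mul'' ht hr
  have hc : ∀ n, C * (n + 4 + 1) ≤ C * 5 * (n + 1) := by
    intro n
    rw [mul_assoc]
    exact Nat.mul_le_mul_left _ (by omega)
  refine ⟨by simp [h.zero], fun x n hx => ?_, fun L hL x y n hx hy => ?_⟩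
  · exact (h.len_W _ _ (n + 4) (hb _ _ _ hp hx) (hb _ _ _ hq hx)).trans (hc n)
  · have := h.add L hL (x * p) (x * q) (y * p) (y * q) (n + 4) (hb _ _ _ hp hx) (hb _ _ _ hq hx)
      (hb _ _ _ hp hy) (hb _ _ _ hq hy)
    rw [← add_mul, ← add_mul] at this
    exact this.mono (hc n)

lemma RadW.L_W (h : RadW W C L₁) {L : ℕ} (hL : L₁ + 20 * C + 1 ≤ L) (s : Lt) (hs : s.1 ∈ P2)
    (a b a' b' : ℤ) (n : ℕ) (ha : a.natAbs < 2 ^ n) (hb : b.natAbs < 2 ^ n)
    (he : s.1 * uu a b = uu a' b' * s.1) :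
    H L ((30 * C + 3) * (n + 1)) (s :: W a b) (W a' b' ++ [s]) := by
  have hbd := s.2
  set g := s.1 with hg
  have hsq := P2_sq hs
  have h22 : (g.1 2 2).natAbs = 1 := by
    have : (g.1 2 2).natAbs * (g.1 2 2).natAbs = 1 := by rw [← Int.natAbs_mul, hsq]; rfl
    exact Nat.eq_one_of_mul_eq_one_right this
  have hsm : ∀ i j, (g.1 2 2 * g.1 i j).natAbs < 2 ^ 4 := by
    intro i j
    have := (hbd i j).1
    rw [Int.natAbs_mul, h22]
    omega
  obtain ⟨e1, e2⟩ : a' = g.1 2 2 * (g.1 0 0 * a + g.1 0 1 * b) ∧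
      b' = g.1 2 2 * (g.1 1 0 * a + g.1 1 1 * b) := by
    rw [P2_uu hs a b] at he
    have := mul_right_cancel he
    obtain ⟨h1, h2⟩ := uu_injective this
    exact ⟨h1.symm, h2.symm⟩
  have F1 : OneP (fun t => W (t * 1) (t * 0)) (C * 5) L₁ := h.dir 1 0 (by norm_num) (by norm_num)
  have F2 : OneP (fun t => W (t * 0) (t * 1)) (C * 5) L₁ := h.dir 0 1 (by norm_num) (by norm_num)
  have F1' := h.dir (g.1 2 2 * g.1 0 0) (g.1 2 2 * g.1 1 0) (hsm 0 0) (hsm 1 0)
  have F2' := h.dir (g.1 2 2 * g.1 0 1) (g.1 2 2 * g.1 1 1) (hsm 0 1) (hsm 1 1)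
  have F1s : OneP (fun t => W t 0) C L₁ := by
    refine ⟨by simp [h.zero], fun x n hx => h.len_W _ _ n hx (by simp), fun L hL x y n hx hy => ?_⟩
    simpa using h.add L hL x 0 y 0 n hx (by simp) hy (by simp)
  have F2s : OneP (fun t => W 0 t) C L₁ := by
    refine ⟨by simp [h.zero], fun x n hx => h.len_W _ _ n (by simp) hx, fun L hL x y n hx hy => ?_⟩
    simpa using h.add L hL 0 x 0 y n (by simp) hx (by simp) hy
  have c1 := count F1s F1' [s] (c := 1) (by simp) (L := L) (by omega) (by omega) (by omega) (by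
    intro σ hσ
    simp only [ev_append, ev_cons, ev_nil, mul_one, h.ev_W, ← hg]
    rw [P2_uu hs σ 0]
    congr 2 <;> ring) a n ha
  have c2 := count F2s F2' [s] (c := 1) (by simp) (L := L) (by omega) (by omega) (by omega) (by
    intro σ hσ
    simp only [ev_append, ev_cons, ev_nil, mul_one, h.ev_W, ← hg]
    rw [P2_uu hs 0 σ]
    congr 2 <;> ring) b n hb
  simp only [List.cons_append, List.nil_append] at c1 c2
  have hC : C ≤ C * (n + 1) := Nat.le_mul_of_pos_right _ (by omega)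
  have s0 : H L (C * (n + 1)) (W a b) (W a 0 ++ W 0 b) := by
    have := (h.add L (by omega) a 0 0 b n ha (by simp) (by simp) hb).symm
    simpa using this
  have l1 := F1s.len a n ha
  have l2 := F2s.len b n hb
  have l3 := F1'.len a n ha
  have l4 := F2'.len b n hb
  have s4 : H L (C * 5 * (n + 1)) (W (a * (g.1 2 2 * g.1 0 0)) (a * (g.1 2 2 * g.1 1 0)) ++
      W (b * (g.1 2 2 * g.1 0 1)) (b * (g.1 2 2 * g.1 1 1))) (W a' b') := by
    have hb' : ∀ (t r : ℤ), r.natAbs < 2 ^ 4 → t.natAbs < 2 ^ n →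
        (t * r).natAbs < 2 ^ (n + 4) := by
      intro t r hr ht
      rw [Int.natAbs_mul, pow_add]
      exact Nat.mul_lt_mul'' ht hr
    have := h.add L (by omega) (a * (g.1 2 2 * g.1 0 0)) (a * (g.1 2 2 * g.1 1 0))
      (b * (g.1 2 2 * g.1 0 1)) (b * (g.1 2 2 * g.1 1 1)) (n + 4)
      (hb' _ _ (hsm 0 0) ha) (hb' _ _ (hsm 1 0) ha) (hb' _ _ (hsm 0 1) hb) (hb' _ _ (hsm 1 1) hb)
    have e3 : a * (g.1 2 2 * g.1 0 0) + b * (g.1 2 2 * g.1 0 1) = a' := by rw [e1]; ring
    have e4 : a * (g.1 2 2 * g.1 1 0) + b * (g.1 2 2 * g.1 1 1) = b' := by rw [e2]; ring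
    rw [e3, e4] at this
    refine this.mono ?_
    rw [mul_assoc]
    exact Nat.mul_le_mul_left _ (by omega)
  have hX : (30 * C + 3) * (n + 1) = 30 * (C * (n + 1)) + 3 * (n + 1) := by ring
  have hX1 : (2 * C + 2 * (C * 5) + 1) * (n + 1) = 12 * (C * (n + 1)) + (n + 1) := by ring
  have hX2 : C * 5 * (n + 1) = 5 * (C * (n + 1)) := by ring
  rw [hX1] at c1 c2
  rw [hX2] at l3 l4 s4
  rw [hX]
  set X := C * (n + 1) with hXd
  have t1 := s0.left [s] (m := 30 * X + 3 * (n + 1)) (by simp; omega)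
  have t2 := c1.right (W 0 b) (m := 30 * X + 3 * (n + 1)) (by omega)
  have t3 := c2.left (W (a * (g.1 2 2 * g.1 0 0)) (a * (g.1 2 2 * g.1 1 0)))
    (m := 30 * X + 3 * (n + 1)) (by omega)
  have t4 := s4.right [s] (m := 30 * X + 3 * (n + 1)) (by simp; omega)
  simp only [List.append_assoc, List.cons_append, List.nil_append] at t1 t2 t3 t4 ⊢
  exact t1.trans (t2.trans (t3.trans t4))

/-- the word for `e_12(x)` -/
def Ew (W : ℤ → ℤ → List Lt) (x : ℤ) : List Lt :=
  if x = 0 then [] else kap :: (W x 0 ++ [linv kap])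

lemma Ew_H (h : RadW W C L₁) {L : ℕ} (hL : 2 ≤ L) (x : ℤ) :
    H L 2 (Ew W x) (kap :: (W x 0 ++ [linv kap])) := by
  unfold Ew
  split_ifs with hx
  · subst hx
    rw [h.zero]
    exact H.one (by simp) (by simpa using hL) (by simp) (by simp) (by simp)
  · exact H.refl _

lemma ev_Ew (h : RadW W C L₁) (x : ℤ) : ev (Ew W x) = e12 x := by
  have := (Ew_H h (le_refl 2) x).ev_eq
  rw [this]
  simp only [ev_cons, ev_append, ev_nil, mul_one, h.ev_W, linv_val]
  exact kap_conj x

lemma Ew_len (h : RadW W C L₁) (x : ℤ) (n : ℕ) (hx : x.natAbs < 2 ^ n) :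
    (Ew W x).length ≤ (C + 2) * (n + 1) := by
  have h1 : (C + 2) * (n + 1) = C * (n + 1) + 2 * (n + 1) := by ring
  unfold Ew
  split_ifs with h0
  · simp
  · have := h.len_W x 0 n hx (by simp)
    simp only [List.length_cons, List.length_append, List.length_nil]
    omega

lemma Ew_one (h : RadW W C L₁) : OneP (Ew W) (2 * C + 6) (L₁ + 2) := by
  refine ⟨by simp [Ew], fun x n hx => ?_, fun L hL x y n hx hy => ?_⟩
  · refine (Ew_len h x n hx).trans (Nat.mul_le_mul_right _ (by omega))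
  · have h1 := Ew_H h (L := L) (by omega) x
    have h2 := Ew_H h (L := L) (by omega) y
    have h3 := Ew_H h (L := L) (by omega) (x + y)
    have h4 : H L (C * (n + 1)) (W x 0 ++ W y 0) (W (x + y) 0) := by
      simpa using h.add L (by omega) x 0 y 0 n hx (by simp) hy (by simp)
    have l1 := h.len_W x 0 n hx (by simp)
    have l2 := h.len_W y 0 n hy (by simp)
    have l3 := Ew_len h x n hx
    have l4 := Ew_len h y n hy
    have hX : (2 * C + 6) * (n + 1) = 2 * (C * (n + 1)) + 6 * (n + 1) := by ring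
    have hX1 : (C + 2) * (n + 1) = C * (n + 1) + 2 * (n + 1) := by ring
    rw [hX1] at l3 l4
    rw [hX]
    set X := C * (n + 1) with hXd
    have t1 := h1.right (Ew W y) (m := 2 * X + 6 * (n + 1)) (by omega)
    have t2 := h2.left (kap :: (W x 0 ++ [linv kap])) (m := 2 * X + 6 * (n + 1)) (by
      simp only [List.length_cons, List.length_append, List.length_nil]; omega)
    have t3 : H L 2 [linv kap, kap] [] := H.one (by simp; omega) (by simp) (by simp) (by simp)
      (by simp)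
    have t3' := t3.ctx (kap :: W x 0) (W y 0 ++ [linv kap]) (m := 2 * X + 6 * (n + 1)) (by
      simp only [List.length_cons, List.length_append, List.length_nil]; omega)
    have t4 := h4.ctx [kap] [linv kap] (m := 2 * X + 6 * (n + 1)) (by
      simp only [List.length_cons, List.length_nil]; omega)
    have t5 := h3.symm.mono (m := 2 * X + 6 * (n + 1)) (by omega)
    simp only [List.append_assoc, List.cons_append, List.nil_append] at t1 t2 t3' t4 t5 ⊢
    exact t1.trans (t2.trans (t3'.trans (t4.trans t5)))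

end

theorem M2 : (∃ W C L₁, RadW W C L₁) → ∃ W E C L₂, LevC W E C L₂ := by
  rintro ⟨W, C, L₁, h⟩
  have hE := Ew_one h
  refine ⟨W, Ew W, 300 * C + 300, L₁ + 100 * C + 100, ?_⟩
  refine ⟨h.ev_W, ev_Ew h, h.zero, hE.zero, ?_, ?_, ?_, ?_, ?_, ?_, ?_⟩
  · intro x y n hx hy
    exact (h.len_W x y n hx hy).trans (Nat.mul_le_mul_right _ (by omega))
  · intro x n hx
    exact (hE.len x n hx).trans (Nat.mul_le_mul_right _ (by omega))
  · intro L hL x y x' y' n h1 h2 h3 h4
    exact (h.add L (by omega) x y x' y' n h1 h2 h3 h4).mono (Nat.mul_le_mul_right _ (by omega))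
  · intro L hL x x' n h1 h2
    exact (hE.add L (by omega) x x' n h1 h2).mono (Nat.mul_le_mul_right _ (by omega))
  · -- E_W
    intro L hL x a b n hx ha hb
    obtain ⟨σ, hσ, h1⟩ := exists_sign x
    have hbd : ∀ m ≤ x.natAbs, (σ * (m : ℤ)).natAbs < 2 ^ n ∧ (x - σ * (m : ℤ)).natAbs < 2 ^ n :=
      fun m hm => natAbs_chain hσ h1 hx hm
    rcases Nat.eq_zero_or_pos x.natAbs with h0 | hpos
    · have : x = 0 := by omega
      subst this
      rw [hE.zero]
      simpa using H.refl _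
    have hn : 1 ≤ n := by
      by_contra hh
      have : n = 0 := by omega
      subst this
      simp at hx
      omega
    have hσn : σ.natAbs < 2 ^ n := by
      rw [h1]; exact Nat.one_lt_two_pow (by omega)
    -- size of the intermediate vectors
    have hv : ∀ m ≤ x.natAbs, (a + σ * (m : ℤ) * b).natAbs < 2 ^ (2 * n + 1) := by
      intro m hm
      have h2 := (hbd m hm).1
      have h3 : (σ * (m : ℤ) * b).natAbs < 2 ^ (2 * n) := by
        rw [Int.natAbs_mul, two_mul, pow_add]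
        exact Nat.mul_lt_mul'' h2 hb
      have h4 := Int.natAbs_add_le a (σ * (m : ℤ) * b)
      have h5 : 2 ^ (2 * n + 1) = 2 * 2 ^ (2 * n) := by rw [pow_succ]; ring
      have h6 : 2 ^ n ≤ 2 ^ (2 * n) := Nat.pow_le_pow_right (by norm_num) (by omega)
      omega
    have hb2 : b.natAbs < 2 ^ (2 * n + 1) :=
      hb.trans_le (Nat.pow_le_pow_right (by norm_num) (by omega))
    have hC : C ≤ C * (n + 1) := Nat.le_mul_of_pos_right _ (by omega)
    have hX : (300 * C + 300) * (n + 1) = 300 * (C * (n + 1)) + 300 * (n + 1) := by ring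
    have hXE : (2 * C + 6) * (n + 1) = 2 * (C * (n + 1)) + 6 * (n + 1) := by ring
    have hXW : C * (2 * n + 1 + 1) = 2 * (C * (n + 1)) := by ring
    have hXL : (30 * C + 3) * (2 * n + 1 + 1) = 60 * (C * (n + 1)) + 6 * (n + 1) := by ring
    have key := H.chain (L := L) (n := (300 * C + 300) * (n + 1))
      (fun m : ℕ => Ew W (x - σ * (m : ℤ)) ++ (W (a + σ * (m : ℤ) * b) b ++ Ew W (σ * (m : ℤ))))
      x.natAbs (by
      intro m hm
      obtain ⟨b1, b2⟩ := hbd m hm.le
      obtain ⟨b3, b4⟩ := hbd (m + 1) hm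
      have v1 := hv m hm.le
      have v2 := hv (m + 1) hm
      push_cast at b3 b4 v2 ⊢
      have e1 : x - σ * (m : ℤ) = (x - σ * ((m : ℤ) + 1)) + σ := by ring
      have e2 : σ * ((m : ℤ) + 1) = σ + σ * (m : ℤ) := by ring
      have e3 : a + σ * ((m : ℤ) + 1) * b = (a + σ * (m : ℤ) * b) + σ * b := by ring
      have l1 := hE.len _ n b1
      have l2 := hE.len _ n b2
      have l3 := hE.len _ n b3
      have l4 := hE.len _ n b4
      have l5 := h.len_W _ b (2 * n + 1) v1 hb2
      have l6 := h.len_W _ b (2 * n + 1) v2 hb2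
      have l7 := hE.len σ n hσn
      have l8 : (Ew W σ).length ≤ (2 * C + 6) * 2 := hE.len σ 1 (by rw [h1]; norm_num)
      rw [hXE] at l1 l2 l3 l4 l7
      rw [hXW] at l5 l6
      rw [hX]
      have s1 : H L ((2 * C + 6) * (n + 1)) (Ew W (x - σ * (m : ℤ)))
          (Ew W (x - σ * ((m : ℤ) + 1)) ++ Ew W σ) := by
        have := (hE.add L (by omega) (x - σ * ((m : ℤ) + 1)) σ n b4 hσn).symm
        rwa [← e1] at this
      have s2 : H L (4 * C + 12) (Ew W σ) [e12L σ h1] := by
        refine H.one (by omega) (by simp; omega) (by omega) (by simp) ?_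
        rw [ev_Ew h]
        simp [e12L]
      have s3 : H L ((30 * C + 3) * (2 * n + 1 + 1)) (e12L σ h1 :: W (a + σ * (m : ℤ) * b) b)
          (W (a + σ * ((m : ℤ) + 1) * b) b ++ [e12L σ h1]) := by
        refine h.L_W (by omega) _ ?_ _ _ _ _ (2 * n + 1) v1 hb2 ?_
        · exact ⟨by simp [e12L, e12], by simp [e12L, e12]⟩
        · rw [e3]
          exact e12_uu σ _ b
      have s4 : H L ((2 * C + 6) * (n + 1)) (Ew W σ ++ Ew W (σ * (m : ℤ)))
          (Ew W (σ * ((m : ℤ) + 1))) := by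
        have := hE.add L (by omega) σ (σ * (m : ℤ)) n hσn b1
        rwa [← e2] at this
      rw [hXE] at s1 s4
      rw [hXL] at s3
      set X := C * (n + 1) with hXd
      have t1 := s1.right (W (a + σ * (m : ℤ) * b) b ++ Ew W (σ * (m : ℤ)))
        (m := 300 * X + 300 * (n + 1)) (by simp only [List.length_append]; omega)
      have t2 := s2.ctx (Ew W (x - σ * ((m : ℤ) + 1)))
        (W (a + σ * (m : ℤ) * b) b ++ Ew W (σ * (m : ℤ)))
        (m := 300 * X + 300 * (n + 1)) (by simp only [List.length_append]; omega)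
      have t3 := s3.ctx (Ew W (x - σ * ((m : ℤ) + 1))) (Ew W (σ * (m : ℤ)))
        (m := 300 * X + 300 * (n + 1)) (by omega)
      have t4 := s2.symm.ctx (Ew W (x - σ * ((m : ℤ) + 1)) ++ W (a + σ * ((m : ℤ) + 1) * b) b)
        (Ew W (σ * (m : ℤ)))
        (m := 300 * X + 300 * (n + 1)) (by simp only [List.length_append]; omega)
      have t5 := s4.left (Ew W (x - σ * ((m : ℤ) + 1)) ++ W (a + σ * ((m : ℤ) + 1) * b) b)
        (m := 300 * X + 300 * (n + 1)) (by simp only [List.length_append]; omega)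
      simp only [List.append_assoc, List.cons_append, List.nil_append] at t1 t2 t3 t4 t5 ⊢
      exact t1.trans (t2.trans (t3.trans (t4.trans t5))))
    simp only [← hσ, Nat.cast_zero, mul_zero, zero_mul, sub_zero, sub_self, hE.zero, add_zero,
      List.append_nil, List.nil_append] at key
    exact key
  · -- L_W
    intro L hL s hs a b a' b' n ha hb he
    exact (h.L_W (by omega) s hs a b a' b' n ha hb he).mono (Nat.mul_le_mul_right _ (by omega))
  · -- L_E
    intro L hL s ε hε he x n hx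
    have F2 : OneP (fun t => Ew W (ε * t)) (2 * C + 6) (L₁ + 2) := by
      have hb : ∀ (t : ℤ) (n : ℕ), t.natAbs < 2 ^ n → (ε * t).natAbs < 2 ^ n := by
        intro t n ht
        rw [Int.natAbs_mul]
        calc ε.natAbs * t.natAbs ≤ 1 * t.natAbs := Nat.mul_le_mul_right _ hε
          _ < 2 ^ n := by omega
      refine ⟨by simp [hE.zero], fun x n hx => hE.len _ n (hb x n hx), fun L hL x y n hx hy => ?_⟩
      have := hE.add L hL (ε * x) (ε * y) n (hb x n hx) (hb y n hy)
      rwa [← mul_add] at this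
    have := count hE F2 [s] (c := 1) (by simp) (L := L) (by omega) (by omega) (by omega) (by
      intro σ hσ
      simp only [ev_append, ev_cons, ev_nil, mul_one, ev_Ew h]
      rcases Int.natAbs_eq σ with h1 | h1
      · rw [h1, hσ]
        simpa using he
      · rw [h1, hσ]
        have e1 : e12 (-((1 : ℕ) : ℤ)) = (e12 1)⁻¹ := by rw [e12_inv]; norm_num
        have e2 : e12 (ε * -((1 : ℕ) : ℤ)) = (e12 ε)⁻¹ := by rw [e12_inv]; norm_num
        rw [e1, e2, eq_inv_mul_iff_mul_eq, ← mul_assoc, ← he, mul_assoc, mul_inv_cancel, mul_one])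
      x n hx
    simp only [List.cons_append, List.nil_append] at this
    refine this.mono (Nat.mul_le_mul_right _ (by omega))

end Pool.Agent.H68.SLF
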