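import Mathlib

/-! Basic definitions for the linear filling length of SL(3,Z):
words in bounded matrices and bounded-length homotopies. -/

set_option autoImplicit false

namespace Pool.Agent.H68.SLF

/-- the group SL(3,Z) -/
abbrev G := Matrix.SpecialLinearGroup (Fin 3) ℤ

/-- all entries of `g` and of its inverse are at most 3 in absolute value -/
def Bd (g : G) : Prop := ∀ i j, (g.1 i j).natAbs ≤ 3 ∧ (g⁻¹.1 i j).natAbs ≤ 3

/-- the (finite) alphabet -/
abbrev Lt := {g : G // Bd g}

lemma Bd.inv {g : G} (h : Bd g) : Bd g⁻¹ := fun i j => ⟨(h i j).2, by rw [inv_inv]; exact (h i j).1⟩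

/-- inverse letter -/
def linv (x : Lt) : Lt := ⟨x.1⁻¹, x.2.inv⟩

/-- evaluation of a word -/
def ev (w : List Lt) : G := (w.map Subtype.val).prod

/-- inverse word -/
def wi (w : List Lt) : List Lt := (w.map linv).reverse

@[simp] lemma ev_nil : ev [] = 1 := rfl
@[simp] lemma ev_cons (x : Lt) (w : List Lt) : ev (x :: w) = x.1 * ev w := by
  simp [ev]
@[simp] lemma ev_append (u v : List Lt) : ev (u ++ v) = ev u * ev v := by
  simp [ev]
@[simp] lemma linv_val (x : Lt) : (linv x).1 = x.1⁻¹ := rfl
@[simp] lemma linv_linv (x : Lt) : linv (linv x) = x := by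
  apply Subtype.ext; simp
@[simp] lemma wi_nil : wi [] = [] := rfl
@[simp] lemma wi_cons (x : Lt) (w : List Lt) : wi (x :: w) = wi w ++ [linv x] := by
  simp [wi]
@[simp] lemma wi_append (u v : List Lt) : wi (u ++ v) = wi v ++ wi u := by
  simp [wi]
@[simp] lemma wi_wi (w : List Lt) : wi (wi w) = w := by
  induction w with
  | nil => rfl
  | cons x w ih => simp [ih]
@[simp] lemma ev_wi (w : List Lt) : ev (wi w) = (ev w)⁻¹ := by
  induction w with
  | nil => simp
  | cons x w ih => simp [ih]
@[simp] lemma length_wi (w : List Lt) : (wi w).length = w.length := by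
  simp [wi]

/-- one elementary move: replace a subword of length at most `L` by another one with the
same value -/
inductive Step (L : ℕ) : List Lt → List Lt → Prop
  | mk (a b u v : List Lt) (hu : u.length ≤ L) (hv : v.length ≤ L) (h : ev u = ev v) :
      Step L (a ++ (u ++ b)) (a ++ (v ++ b))

lemma Step.symm {L : ℕ} {x y : List Lt} (h : Step L x y) : Step L y x := by
  obtain ⟨a, b, u, v, hu, hv, h⟩ := h
  exact ⟨a, b, v, u, hv, hu, h.symm⟩

lemma Step.ctx {L : ℕ} {x y : List Lt} (h : Step L x y) (a b : List Lt) :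
    Step L (a ++ (x ++ b)) (a ++ (y ++ b)) := by
  obtain ⟨c, d, u, v, hu, hv, h⟩ := h
  have := Step.mk (L := L) (a ++ c) (d ++ b) u v hu hv h
  simpa [List.append_assoc] using this

lemma Step.ev_eq {L : ℕ} {x y : List Lt} (h : Step L x y) : ev x = ev y := by
  obtain ⟨c, d, u, v, hu, hv, h⟩ := h
  simp [h]

/-- `H L n u v`: `u` can be transformed into `v` by moves of size at most `L`, all words met
on the way (including both ends, unless there is no move at all) having length at most `n` -/
def H (L n : ℕ) (u v : List Lt) : Prop :=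
  Relation.ReflTransGen (fun x y => Step L x y ∧ x.length ≤ n ∧ y.length ≤ n) u v

namespace H

variable {L n : ℕ} {u v w : List Lt}

lemma refl (u : List Lt) : H L n u u := Relation.ReflTransGen.refl

lemma rfl' : H L n u u := Relation.ReflTransGen.refl

lemma of_eq (h : u = v) : H L n u v := h ▸ refl u

lemma trans (h1 : H L n u v) (h2 : H L n v w) : H L n u w := Relation.ReflTransGen.trans h1 h2

lemma symm (h : H L n u v) : H L n v u := by
  induction h with
  | refl => exact Relation.ReflTransGen.refl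
  | tail _ h ih => exact Relation.ReflTransGen.head ⟨h.1.symm, h.2.2, h.2.1⟩ ih

lemma mono {m : ℕ} (h : H L n u v) (hm : n ≤ m) : H L m u v := by
  induction h with
  | refl => exact Relation.ReflTransGen.refl
  | tail _ h ih => exact Relation.ReflTransGen.tail ih ⟨h.1, h.2.1.trans hm, h.2.2.trans hm⟩

lemma monoL {L' : ℕ} (h : H L n u v) (hL : L ≤ L') : H L' n u v := by
  induction h with
  | refl => exact Relation.ReflTransGen.refl
  | tail _ h ih =>
    refine Relation.ReflTransGen.tail ih ?_
    obtain ⟨⟨a, b, u, v, hu, hv, h⟩, h1, h2⟩ := h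
    exact ⟨⟨a, b, u, v, hu.trans hL, hv.trans hL, h⟩, h1, h2⟩

/-- homotopy in a context -/
lemma ctx (h : H L n u v) (a b : List Lt) {m : ℕ} (hm : n + a.length + b.length ≤ m) :
    H L m (a ++ (u ++ b)) (a ++ (v ++ b)) := by
  induction h with
  | refl => exact Relation.ReflTransGen.refl
  | tail _ h ih =>
    refine Relation.ReflTransGen.tail ih ⟨h.1.ctx a b, ?_, ?_⟩
    · have := h.2.1; simp only [List.length_append]; omega
    · have := h.2.2; simp only [List.length_append]; omega

lemma left (h : H L n u v) (a : List Lt) {m : ℕ} (hm : n + a.length ≤ m) :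
    H L m (a ++ u) (a ++ v) := by
  have := h.ctx a [] (m := m) (by simpa using hm)
  simpa using this

lemma right (h : H L n u v) (b : List Lt) {m : ℕ} (hm : n + b.length ≤ m) :
    H L m (u ++ b) (v ++ b) := by
  have := h.ctx [] b (m := m) (by simpa using hm)
  simpa using this

lemma cons (h : H L n u v) (a : Lt) {m : ℕ} (hm : n + 1 ≤ m) :
    H L m (a :: u) (a :: v) := h.left [a] (by simpa using hm)

/-- a single relator -/
lemma one (hu : u.length ≤ L) (hv : v.length ≤ L) (hn : u.length ≤ n) (hm : v.length ≤ n)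
    (h : ev u = ev v) : H L n u v := by
  refine Relation.ReflTransGen.single ⟨?_, hn, hm⟩
  have := Step.mk (L := L) [] [] u v hu hv h
  simpa using this

lemma ev_eq (h : H L n u v) : ev u = ev v := by
  induction h with
  | refl => rfl
  | tail _ h ih => rw [ih, h.1.ev_eq]

/-- free cancellation -/
lemma cancel (hL : 2 ≤ L) (w : List Lt) (hn : 2 * w.length ≤ n) : H L n (w ++ wi w) [] := by
  induction w using List.reverseRecOn generalizing n with
  | nil => exact refl _
  | append_singleton w x ih =>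
    have h1 : H L n ((w ++ [x]) ++ wi (w ++ [x])) (w ++ ([] ++ wi w)) := by
      have h2 : H L 2 [x, linv x] [] := one (by simpa using hL) (by simp) (by simp) (by simp)
        (by simp)
      have := h2.ctx w (wi w) (m := n) (by simp at hn ⊢; omega)
      simpa [List.append_assoc] using this
    refine h1.trans ?_
    simp only [List.nil_append]
    exact ih (by simp at hn; omega)

lemma cancel' (hL : 2 ≤ L) (w : List Lt) (hn : 2 * w.length ≤ n) : H L n (wi w ++ w) [] := by
  have := cancel (n := n) hL (wi w) (by simpa using hn)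
  simpa using this

end H

/-! ### Sizes -/

/-- all entries of `g` and of its inverse are `< 2 ^ n` in absolute value -/
def Sz (n : ℕ) (g : G) : Prop :=
  ∀ i j, (g.1 i j).natAbs < 2 ^ n ∧ (g⁻¹.1 i j).natAbs < 2 ^ n

/-- the parabolic subgroup of matrices with first column `(*,0,0)` -/
def P1 : Subgroup G where
  carrier := {g | g.1 1 0 = 0 ∧ g.1 2 0 = 0}
  mul_mem' := by
    intro a b ha hb
    simp only [Set.mem_ofPred_eq] at ha hb ⊢
    constructor <;>
      simp [Matrix.mul_apply, Fin.sum_univ_three, ha.1, ha.2, hb.1, hb.2]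
  one_mem' := by simp
  inv_mem' := by
    intro a ha
    simp only [Set.mem_ofPred_eq] at ha ⊢
    constructor <;>
      simp [Matrix.adjugate_fin_three, ha.1, ha.2]

/-- the parabolic subgroup of matrices with last row `(0,0,*)` -/
def P2 : Subgroup G where
  carrier := {g | g.1 2 0 = 0 ∧ g.1 2 1 = 0}
  mul_mem' := by
    intro a b ha hb
    simp only [Set.mem_ofPred_eq] at ha hb ⊢
    constructor <;>
      simp [Matrix.mul_apply, Fin.sum_univ_three, ha.1, ha.2, hb.1, hb.2]
  one_mem' := by simp
  inv_mem' := by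
    intro a ha
    simp only [Set.mem_ofPred_eq] at ha ⊢
    constructor <;>
      simp [Matrix.adjugate_fin_three, ha.1, ha.2]

/-- the two parabolic subgroups, indexed by `Bool`: `Pb false = P1`, `Pb true = P2` -/
def Pb : Bool → Subgroup G
  | false => P1
  | true => P2

lemma Sz.mono {n m : ℕ} {g : G} (h : Sz n g) (hm : n ≤ m) : Sz m g := fun i j =>
  ⟨(h i j).1.trans_le (Nat.pow_le_pow_right (by norm_num) hm),
    (h i j).2.trans_le (Nat.pow_le_pow_right (by norm_num) hm)⟩

lemma Sz.inv {n : ℕ} {g : G} (h : Sz n g) : Sz n g⁻¹ := fun i j =>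
  ⟨(h i j).2, by rw [inv_inv]; exact (h i j).1⟩

lemma Sz.mul {n m : ℕ} {g h : G} (hg : Sz n g) (hh : Sz m h) : Sz (n + m + 2) (g * h) := by
  have key : ∀ (a b : ℕ) (x y : G), (∀ i j, (x.1 i j).natAbs < 2 ^ a) →
      (∀ i j, (y.1 i j).natAbs < 2 ^ b) → ∀ i j, ((x * y).1 i j).natAbs < 2 ^ (a + b + 2) := by
    intro a b x y hx hy i j
    have e : (x * y).1 i j = x.1 i 0 * y.1 0 j + x.1 i 1 * y.1 1 j + x.1 i 2 * y.1 2 j := by
      simp [Matrix.mul_apply, Fin.sum_univ_three]
    rw [e]
    have hb : ∀ k, (x.1 i k * y.1 k j).natAbs < 2 ^ (a + b) := by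
      intro k
      rw [Int.natAbs_mul, pow_add]
      exact Nat.mul_lt_mul'' (hx i k) (hy k j)
    have h0 := hb 0
    have h1 := hb 1
    have h2 := hb 2
    have h3 := Int.natAbs_add_le (x.1 i 0 * y.1 0 j + x.1 i 1 * y.1 1 j) (x.1 i 2 * y.1 2 j)
    have h4 := Int.natAbs_add_le (x.1 i 0 * y.1 0 j) (x.1 i 1 * y.1 1 j)
    have h5 : 2 ^ (a + b + 2) = 4 * 2 ^ (a + b) := by rw [pow_add]; ring
    omega
  intro i j
  refine ⟨key n m g h (fun i j => (hg i j).1) (fun i j => (hh i j).1) i j, ?_⟩
  rw [mul_inv_rev]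
  have := key m n h⁻¹ g⁻¹ (fun i j => (hh i j).2) (fun i j => (hg i j).2) i j
  rwa [show m + n + 2 = n + m + 2 by ring] at this

lemma exists_Sz (g : G) : ∃ n, Sz n g := by
  refine ⟨∑ i, ∑ j, ((g.1 i j).natAbs + (g⁻¹.1 i j).natAbs), fun i j => ?_⟩
  have h1 : (g.1 i j).natAbs + (g⁻¹.1 i j).natAbs ≤
      ∑ i, ∑ j, ((g.1 i j).natAbs + (g⁻¹.1 i j).natAbs) := by
    refine le_trans ?_ (Finset.single_le_sum (f := fun i => ∑ j, ((g.1 i j).natAbs +
      (g⁻¹.1 i j).natAbs)) (fun _ _ => Nat.zero_le _) (Finset.mem_univ i))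
    exact Finset.single_le_sum (f := fun j => ((g.1 i j).natAbs +
      (g⁻¹.1 i j).natAbs)) (fun _ _ => Nat.zero_le _) (Finset.mem_univ j)
  have h2 := Nat.lt_two_pow_self (n := ∑ i, ∑ j, ((g.1 i j).natAbs + (g⁻¹.1 i j).natAbs))
  omega

lemma Bd.Sz {g : G} (h : Bd g) : Sz 2 g := fun i j => by
  have := h i j
  constructor <;> omega

/-- the radical element with last column `(x,y,1)` -/
def uu (x y : ℤ) : G := ⟨!![1, 0, x; 0, 1, y; 0, 0, 1], by simp [Matrix.det_fin_three]⟩

/-- the Parabolic package: everything that the global argument needs to know about the two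
parabolic subgroups. `w b p` is a word for `p ∈ Pb b`. -/
structure Par (w : Bool → G → List Lt) (C L : ℕ) : Prop where
  ev_w : ∀ b p, p ∈ Pb b → ev (w b p) = p
  len_w : ∀ b p n, p ∈ Pb b → Sz n p → (w b p).length ≤ C * (n + 1)
  comp : ∀ b p q n, p ∈ Pb b → q ∈ Pb b → Sz n p → Sz n q →
    H L (C * (n + 1)) (w b p ++ w b q) (w b (p * q))
  conv : ∀ p n, p ∈ P1 → p ∈ P2 → Sz n p → H L (C * (n + 1)) (w false p) (w true p)
  one : ∀ b, w b 1 = []

end Pool.Agent.H68.SLF
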