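import Pool.Agent.H68.SLF.Flags

/-! Module M6b: the hexagon lemma, by induction on the determinant. -/

set_option autoImplicit false

namespace Pool.Agent.H68.SLF

lemma Prim.ne_zero {p : Fin 3 → ℤ} (h : Prim p) : p ≠ 0 := by
  rintro rfl
  obtain ⟨s, hs⟩ := h
  simp at hs

lemma dep_mul {p q : Fin 3 → ℤ} (hp : Prim p) (hi : ¬ Indep p q) :
    ∃ t : ℤ, ∀ i, q i = t * p i := by
  unfold Indep at hi
  push Not at hi
  obtain ⟨h1, h2, h3⟩ := hi
  obtain ⟨r, hr⟩ := hp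
  refine ⟨r 0 * q 0 + r 1 * q 1 + r 2 * q 2, fun i => ?_⟩
  fin_cases i
  · simp only [Fin.zero_eta, Fin.isValue]
    linear_combination (-q 0) * hr - r 1 * h1 - r 2 * h2
  · simp only [Fin.mk_one, Fin.isValue]
    linear_combination (-q 1) * hr + r 0 * h1 - r 2 * h3
  · simp only [Fin.reduceFinMk, Fin.isValue]
    linear_combination (-q 2) * hr + r 0 * h2 + r 1 * h3

lemma rl_of_dep {g h : G} (hi : ¬ Indep (pt g) (pt h)) : Rl false g h := by
  obtain ⟨t, ht⟩ := dep_mul (Prim_pt g) hi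
  refine rl_of_On1 (Prim_pt h).ne_zero ?_ (On1_pt h)
  obtain ⟨c1, c2⟩ := On1_pt g
  rw [m5_mv] at c1 c2
  constructor
  · rw [m5_mv, ht 0, ht 1, ht 2]
    linear_combination t * c1
  · rw [m5_mv, ht 0, ht 1, ht 2]
    linear_combination t * c2

lemma Indep.symm {p q : Fin 3 → ℤ} (h : Indep p q) : Indep q p := by
  unfold Indep at *
  rintro ⟨h1, h2, h3⟩
  exact h ⟨by linarith, by linarith, by linarith⟩

lemma Indep_of_det {x y z : Fin 3 → ℤ} (h : det3 x y z ≠ 0) :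
    Indep x y ∧ Indep y z ∧ Indep z x := by
  refine ⟨?_, ?_, ?_⟩
  · rintro ⟨h1, h2, h3⟩
    apply h
    simp only [det3]
    linear_combination z 2 * h1 - z 1 * h2 + z 0 * h3
  · rintro ⟨h1, h2, h3⟩
    apply h
    simp only [det3]
    linear_combination x 2 * h1 - x 1 * h2 + x 0 * h3
  · rintro ⟨h1, h2, h3⟩
    apply h
    simp only [det3]
    linear_combination y 2 * h1 - y 1 * h2 + y 0 * h3

/-- a primitive vector dependent on another one is plus or minus it -/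
lemma dep_eq {p q : Fin 3 → ℤ} (hp : Prim p) (hq : Prim q) (hi : ¬ Indep p q) :
    (∀ i, q i = p i) ∨ (∀ i, q i = - p i) := by
  obtain ⟨t, ht⟩ := dep_mul hp hi
  have hi' : ¬ Indep q p := fun h => hi h.symm
  obtain ⟨s, hs⟩ := dep_mul hq hi'
  obtain ⟨r, hr⟩ := hp
  have hts : s * t = 1 := by
    have h0 := hs 0
    have h1 := hs 1
    have h2 := hs 2
    rw [ht 0] at h0
    rw [ht 1] at h1
    rw [ht 2] at h2
    linear_combination (s * t - 1) * (-hr) - r 0 * h0 - r 1 * h1 - r 2 * h2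
  have hu : IsUnit t := IsUnit.of_mul_eq_one _ (by rw [mul_comm]; exact hts)
  rcases Int.isUnit_iff.1 hu with h | h
  · left; intro i; rw [ht i, h, one_mul]
  · right; intro i; rw [ht i, h]; ring

/-- the degenerate case of the hexagon lemma -/
lemma hex_alt {g0 g1 g2 g3 g4 g5 : G} (r0 : Rl false g0 g1) (r1 : Rl true g1 g2)
    (r2 : Rl false g2 g3) (r3 : Rl true g3 g4) (r4 : Rl false g4 g5) (r5 : Rl true g5 g0)
    (hd : det3 (pt g0) (pt g2) (pt g4) = 0) :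
    Rl false g1 g2 ∨ Rl true g2 g3 ∨ Rl false g3 g4 := by
  rw [← m5_det3 g2⁻¹] at hd
  have h2 : g2⁻¹.1.mulVec (pt g2) = ![1, 0, 0] := by unfold pt; rw [m5_inv_mul]
  have h0 : On2 g2 (pt g0) := (((On1_pt g0).of_rl r0).on2).of_rl r1
  unfold On2 at h0
  rw [h2] at hd
  simp only [det3, Matrix.cons_val_zero, Matrix.cons_val_one, Matrix.cons_val, h0] at hd
  have hd' : (g2⁻¹.1.mulVec (pt g0)) 1 * (g2⁻¹.1.mulVec (pt g4)) 2 = 0 := by linarith
  rcases mul_eq_zero.1 hd' with h | h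
  · left
    have : Rl false g0 g2 := rl_of_On1 (Prim_pt g0).ne_zero (On1_pt g0) ⟨h, h0⟩
    exact r0.symm.trans this
  · right
    by_cases hi : Indep (pt g2) (pt g4)
    · left
      refine rl_of_On2 hi (On1_pt g2).on2 h ((On1_pt g2).of_rl r2).on2 ?_
      exact (On1_pt g4).on2.of_rl r3.symm
    · right
      exact r2.symm.trans (rl_of_dep hi)

/-- a family of frames for flags given by pairs of vectors -/
structure Fr (c m : ℕ) (F : (Fin 3 → ℤ) → (Fin 3 → ℤ) → G) : Prop where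
  sz : ∀ p q, Prim p → Vs m p → Vs m q → Indep p q → Sz (c * (m + 1)) (F p q)
  pt : ∀ p q, Prim p → Vs m p → Vs m q → Indep p q → pt (F p q) = p
  on : ∀ p q, Prim p → Vs m p → Vs m q → Indep p q → On2 (F p q) q

lemma exists_Fr : ∃ c : ℕ, ∀ m, ∃ F, Fr c m F := by
  obtain ⟨c, hc⟩ := M5_frame
  refine ⟨c, fun m => ?_⟩
  choose! F hF using hc m
  exact ⟨F, fun p q h1 h2 h3 h4 => (hF p q h1 h2 h3 h4).1,
    fun p q h1 h2 h3 h4 => (hF p q h1 h2 h3 h4).2.1,
    fun p q h1 h2 h3 h4 => (hF p q h1 h2 h3 h4).2.2⟩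

/-- good vectors -/
structure Gd (m : ℕ) (p : Fin 3 → ℤ) : Prop where
  prim : Prim p
  vs : Vs m p

namespace Fr

variable {c m : ℕ} {F : (Fin 3 → ℤ) → (Fin 3 → ℤ) → G}

lemma rl1 (h : Fr c m F) {p q r : Fin 3 → ℤ} (hp : Gd m p) (hq : Gd m q) (hr : Gd m r)
    (i1 : Indep p q) (i2 : Indep p r) : Rl false (F p q) (F p r) :=
  rl_of_On1 hp.prim.ne_zero (On1_of_eq (h.pt p q hp.prim hp.vs hq.vs i1))
    (On1_of_eq (h.pt p r hp.prim hp.vs hr.vs i2))

lemma rl2 (h : Fr c m F) {p q : Fin 3 → ℤ} (hp : Gd m p) (hq : Gd m q)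
    (i1 : Indep p q) : Rl true (F p q) (F q p) :=
  rl_of_On2 i1 (On1_of_eq (h.pt p q hp.prim hp.vs hq.vs i1)).on2
    (h.on p q hp.prim hp.vs hq.vs i1) (h.on q p hq.prim hq.vs hp.vs i1.symm)
    (On1_of_eq (h.pt q p hq.prim hq.vs hp.vs i1.symm)).on2

end Fr

/-- the hexagon of a triangle -/
def hexF (w : Bool → G → List Lt) (F : (Fin 3 → ℤ) → (Fin 3 → ℤ) → G) (x y z : Fin 3 → ℤ) :
    List Lt := hexw w (F x z) (F x y) (F y x) (F y z) (F z y) (F z x)

lemma hexF_len {w : Bool → G → List Lt} {C L : ℕ} (hP : Par w C L) {c m : ℕ}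
    {F : (Fin 3 → ℤ) → (Fin 3 → ℤ) → G} (h : Fr c m F) {x y z : Fin 3 → ℤ}
    (hx : Gd m x) (hy : Gd m y) (hz : Gd m z) (ixy : Indep x y) (iyz : Indep y z)
    (izx : Indep z x) :
    (hexF w F x y z).length ≤ 6 * (C * (2 * (c * (m + 1)) + 3)) ∧ ev (hexF w F x y z) = 1 := by
  have s1 := h.sz x z hx.prim hx.vs hz.vs izx.symm
  have s2 := h.sz x y hx.prim hx.vs hy.vs ixy
  have s3 := h.sz y x hy.prim hy.vs hx.vs ixy.symm
  have s4 := h.sz y z hy.prim hy.vs hz.vs iyz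
  have s5 := h.sz z y hz.prim hz.vs hy.vs iyz.symm
  have s6 := h.sz z x hz.prim hz.vs hx.vs izx
  have r1 := h.rl1 hx hz hy izx.symm ixy
  have r2 := h.rl2 hx hy ixy
  have r3 := h.rl1 hy hx hz ixy.symm iyz
  have r4 := h.rl2 hy hz iyz
  have r5 := h.rl1 hz hy hx iyz.symm izx
  have r6 := h.rl2 hz hx izx
  constructor
  · have l1 := hP.eg_len s1 s2 r1
    have l2 := hP.eg_len s2 s3 r2
    have l3 := hP.eg_len s3 s4 r3
    have l4 := hP.eg_len s4 s5 r4
    have l5 := hP.eg_len s5 s6 r5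
    have l6 := hP.eg_len s6 s1 r6
    unfold hexF hexw
    simp only [List.length_append]
    omega
  · unfold hexF hexw eg
    simp only [ev_append, hP.ev_w _ _ r1, hP.ev_w _ _ r2, hP.ev_w _ _ r3, hP.ev_w _ _ r4,
      hP.ev_w _ _ r5, hP.ev_w _ _ r6]
    group

/-- the statement proved by induction -/
def Fills (w : Bool → G → List Lt) (L K B N : ℕ) : Prop :=
  ∀ (n : ℕ) (g0 g1 g2 g3 g4 g5 : G), Sz n g0 → Sz n g1 → Sz n g2 → Sz n g3 → Sz n g4 → Sz n g5 →
    Rl false g0 g1 → Rl true g1 g2 → Rl false g2 g3 → Rl true g3 g4 → Rl false g4 g5 →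
    Rl true g5 g0 → (det3 (pt g0) (pt g2) (pt g4)).natAbs = N →
    H L (K * (n + 1) + B * (Nat.size N + 1)) (hexw w g0 g1 g2 g3 g4 g5) []

lemma hexF_of_fills {w : Bool → G → List Lt} {L K B N : ℕ} {c m : ℕ}
    {F : (Fin 3 → ℤ) → (Fin 3 → ℤ) → G} (h : Fr c m F) {x y z : Fin 3 → ℤ}
    (hx : Gd m x) (hy : Gd m y) (hz : Gd m z) (ixy : Indep x y) (iyz : Indep y z)
    (izx : Indep z x) (hN : (det3 x y z).natAbs = N) (hf : Fills w L K B N) :
    H L (K * (c * (m + 1) + 1) + B * (Nat.size N + 1)) (hexF w F x y z) [] := by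
  refine hf (c * (m + 1)) _ _ _ _ _ _ (h.sz x z hx.prim hx.vs hz.vs izx.symm)
    (h.sz x y hx.prim hx.vs hy.vs ixy) (h.sz y x hy.prim hy.vs hx.vs ixy.symm)
    (h.sz y z hy.prim hy.vs hz.vs iyz) (h.sz z y hz.prim hz.vs hy.vs iyz.symm)
    (h.sz z x hz.prim hz.vs hx.vs izx) (h.rl1 hx hz hy izx.symm ixy) (h.rl2 hx hy ixy)
    (h.rl1 hy hx hz ixy.symm iyz) (h.rl2 hy hz iyz) (h.rl1 hz hy hx iyz.symm izx)
    (h.rl2 hz hx izx) ?_
  rw [h.pt x z hx.prim hx.vs hz.vs izx.symm, h.pt y x hy.prim hy.vs hx.vs ixy.symm,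
    h.pt z y hz.prim hz.vs hy.vs iyz.symm]
  exact hN

lemma hexF_subdiv {w : Bool → G → List Lt} {C L : ℕ} (hP : Par w C L) {c m X : ℕ}
    {F : (Fin 3 → ℤ) → (Fin 3 → ℤ) → G} (h : Fr c m F) {x y z u : Fin 3 → ℤ}
    (hx : Gd m x) (hy : Gd m y) (hz : Gd m z) (hu : Gd m u) (ixy : Indep x y) (iyz : Indep y z)
    (izx : Indep z x) (ixu : Indep x u) (iyu : Indep y u) (izu : Indep z u)
    (h1 : H L X (hexF w F x y u) []) (h2 : H L X (hexF w F y z u) [])
    (h3 : H L X (hexF w F z x u) []) {M : ℕ}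
    (hM : X + 30 * (C * (2 * (c * (m + 1)) + 3)) ≤ M) :
    H L M (hexF w F x y z) [] := by
  refine hP.subdiv (h.sz x y hx.prim hx.vs hy.vs ixy) (h.sz y x hy.prim hy.vs hx.vs ixy.symm)
    (h.sz y z hy.prim hy.vs hz.vs iyz) (h.sz z y hz.prim hz.vs hy.vs iyz.symm)
    (h.sz z x hz.prim hz.vs hx.vs izx) (h.sz x z hx.prim hx.vs hz.vs izx.symm)
    (h.sz x u hx.prim hx.vs hu.vs ixu) (h.sz u x hu.prim hu.vs hx.vs ixu.symm)
    (h.sz y u hy.prim hy.vs hu.vs iyu) (h.sz u y hu.prim hu.vs hy.vs iyu.symm)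
    (h.sz z u hz.prim hz.vs hu.vs izu) (h.sz u z hu.prim hu.vs hz.vs izu.symm)
    (h.rl2 hx hy ixy) (h.rl2 hy hz iyz) (h.rl2 hz hx izx) (h.rl2 hx hu ixu) (h.rl2 hy hu iyu)
    (h.rl2 hz hu izu) (h.rl1 hx hz hy izx.symm ixy) (h.rl1 hx hz hu izx.symm ixu)
    (h.rl1 hy hx hz ixy.symm iyz) (h.rl1 hy hx hu ixy.symm iyu) (h.rl1 hz hy hx iyz.symm izx)
    (h.rl1 hz hy hu iyz.symm izu) (h.rl1 hu hx hy ixu.symm iyu.symm)
    (h.rl1 hu hy hz iyu.symm izu.symm) h1 h2 h3 hM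

lemma size_cube {N M s : ℕ} (hs : s = Nat.size N) (h : M ^ 3 < 8 * N ^ 2) :
    Nat.size M ≤ (2 * s + 5) / 3 := by
  rw [Nat.size_le]
  by_contra hc
  push Not at hc
  have hN : N < 2 ^ s := by rw [hs]; exact Nat.lt_size_self N
  have h1 : 2 ^ (3 * ((2 * s + 5) / 3)) ≤ M ^ 3 := by
    rw [mul_comm 3, pow_mul]
    exact Nat.pow_le_pow_left hc 3
  have h2 : 2 ^ (2 * s + 3) ≤ 2 ^ (3 * ((2 * s + 5) / 3)) :=
    Nat.pow_le_pow_right (by norm_num) (by omega)
  have h3 : 8 * N ^ 2 ≤ 2 ^ (2 * s + 3) := by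
    have : N ^ 2 ≤ (2 ^ s) ^ 2 := Nat.pow_le_pow_left hN.le 2
    have e : 2 ^ (2 * s + 3) = 8 * (2 ^ s) ^ 2 := by
      rw [pow_add, ← pow_mul, mul_comm s 2]; ring
    omega
  omega

lemma num_ineq {C c K B s r : ℕ} (hs : 13 ≤ s) (hr : 3 * r ≤ 2 * s + 5)
    (hB : 6 * (K * (c + 1) + 30 * C * (2 * c + 3)) ≤ B) :
    K * (c * (s + 2 + 1) + 1) + B * (r + 1) + 30 * (C * (2 * (c * (s + 2 + 1)) + 3)) ≤
      B * (s + 1) := by
  obtain ⟨k, rfl⟩ : ∃ k, s = 13 + k := ⟨s - 13, by omega⟩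
  set M := K * (c + 1) + 30 * C * (2 * c + 3) with hM
  have h1 : K * (c * (13 + k + 2 + 1) + 1) + 30 * (C * (2 * (c * (13 + k + 2 + 1)) + 3)) ≤
      M * (16 + k) := by
    rw [hM]
    nlinarith [Nat.zero_le (K * k), Nat.zero_le (C * k), Nat.zero_le K, Nat.zero_le C]
  have h2 : 3 * (B * (r + 1)) ≤ B * (2 * (13 + k) + 8) := by
    calc 3 * (B * (r + 1)) = B * (3 * r + 3) := by ring
      _ ≤ _ := Nat.mul_le_mul_left _ (by omega)
  have h3 : 3 * (M * (16 + k)) ≤ B * (8 + k) := by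
    calc 3 * (M * (16 + k)) ≤ 6 * M * (8 + k) := by nlinarith [Nat.zero_le (M * k)]
      _ ≤ _ := Nat.mul_le_mul_right _ hB
  have h4 : 3 * (B * (13 + k + 1)) = B * (2 * (13 + k) + 8) + B * (8 + k) := by ring
  omega

lemma reduced_hex {w : Bool → G → List Lt} {C L : ℕ} (hP : Par w C L) {c K B N : ℕ}
    {F : (Fin 3 → ℤ) → (Fin 3 → ℤ) → G} (h : Fr c (Nat.size N + 2) F)
    (hL : 6 * (C * (2 * (c * 15) + 3)) ≤ L)
    (hB : 6 * (K * (c + 1) + 30 * C * (2 * c + 3)) + 6 * (C * (2 * (c * 15) + 3)) ≤ B)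
    {y z : Fin 3 → ℤ} (hy : Prim y) (hz : Prim z) (hy2 : y 2 = 0)
    (hyN : ∀ i, (y i).natAbs ≤ N) (hzN : ∀ i, (z i).natAbs ≤ N)
    (hdet : (det3 ![1, 0, 0] y z).natAbs = N) (hN : N ≠ 0)
    (ih : ∀ N' < N, Fills w L K B N') :
    H L (B * (Nat.size N + 1)) (hexF w F ![1, 0, 0] y z) [] := by
  obtain ⟨s, hs⟩ : ∃ s, s = Nat.size N := ⟨_, rfl⟩
  rw [← hs] at h ⊢
  have hNs : N < 2 ^ s := by rw [hs]; exact Nat.lt_size_self N
  have hpow : 2 ^ (s + 2) = 4 * 2 ^ s := by rw [pow_add]; ring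
  have gx : Gd (s + 2) ![1, 0, 0] := by
    refine ⟨⟨![1, 0, 0], by simp⟩, fun i => ?_⟩
    have : 1 ≤ 2 ^ s := Nat.one_le_two_pow
    fin_cases i <;> simp <;> omega
  have gy : Gd (s + 2) y := ⟨hy, fun i => by have := hyN i; omega⟩
  have gz : Gd (s + 2) z := ⟨hz, fun i => by have := hzN i; omega⟩
  have hd0 : det3 ![1, 0, 0] y z ≠ 0 := by
    intro h0
    rw [h0] at hdet
    exact hN hdet.symm
  obtain ⟨ixy, iyz, izx⟩ := Indep_of_det hd0
  rcases Nat.lt_or_ge s 13 with hs13 | hs13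
  · -- bounded case: one relator
    obtain ⟨hl, he⟩ := hexF_len hP h gx gy gz ixy iyz izx
    have hl' : (hexF w F ![1, 0, 0] y z).length ≤ 6 * (C * (2 * (c * 15) + 3)) := by
      refine hl.trans ?_
      have : c * (s + 2 + 1) ≤ c * 15 := Nat.mul_le_mul_left _ (by omega)
      have : C * (2 * (c * (s + 2 + 1)) + 3) ≤ C * (2 * (c * 15) + 3) :=
        Nat.mul_le_mul_left _ (by omega)
      omega
    have hBs : B ≤ B * (s + 1) := Nat.le_mul_of_pos_right _ (by omega)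
    exact H.one (hl'.trans hL) (by simp) (by omega) (by simp) (by simpa using he)
  · -- subdivision
    have hN2 : 2 ≤ N := by
      have : 2 ^ 12 ≤ N := by rw [← Nat.lt_size, ← hs]; omega
      omega
    have ey : y = ![y 0, y 1, 0] := by
      ext i; fin_cases i <;> simp [hy2]
    have ez : z = ![z 0, z 1, z 2] := by
      ext i; fin_cases i <;> simp
    have hdc : (y 1 * z 2).natAbs = N := by
      rw [← hdet]
      congr 1
      simp only [det3, Matrix.cons_val_zero, Matrix.cons_val_one, Matrix.cons_val, hy2]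
      ring
    obtain ⟨u, hu, huN, ⟨b1, c1⟩, ⟨b2, c2⟩, ⟨b3, c3⟩⟩ := M5_mink N (y 0) (y 1) (z 0) (z 1) (z 2)
      hN2 hdc (hyN 0) (hyN 1) (hzN 0) (hzN 1) (hzN 2)
    rw [← ey, ← ez] at b1 c1
    rw [← ez] at b2 c2
    rw [← ey] at b3 c3
    have gu : Gd (s + 2) u := ⟨hu, fun i => by have := huN i; omega⟩
    -- `u` is different from the three points
    have ixu : Indep ![1, 0, 0] u := by
      by_contra hi
      rcases dep_eq gx.prim hu hi with e | e
      · have : det3 u y z = det3 ![1, 0, 0] y z := by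
          simp only [det3, e]
        rw [this, hdet] at b1
        omega
      · have : det3 u y z = - det3 ![1, 0, 0] y z := by
          simp only [det3, e]; ring
        rw [this, Int.natAbs_neg, hdet] at b1
        omega
    have iyu : Indep y u := by
      by_contra hi
      rcases dep_eq hy hu hi with e | e
      · have : det3 ![1, 0, 0] u z = det3 ![1, 0, 0] y z := by
          simp only [det3, e]
        rw [this, hdet] at b2
        omega
      · have : det3 ![1, 0, 0] u z = - det3 ![1, 0, 0] y z := by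
          simp only [det3, e]; ring
        rw [this, Int.natAbs_neg, hdet] at b2
        omega
    have izu : Indep z u := by
      by_contra hi
      rcases dep_eq hz hu hi with e | e
      · have : det3 ![1, 0, 0] y u = det3 ![1, 0, 0] y z := by
          simp only [det3, e]
        rw [this, hdet] at b3
        omega
      · have : det3 ![1, 0, 0] y u = - det3 ![1, 0, 0] y z := by
          simp only [det3, e]; ring
        rw [this, Int.natAbs_neg, hdet] at b3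
        omega
    have e2 : (det3 y z u).natAbs = (det3 u y z).natAbs := by
      congr 1
      simp only [det3]; ring
    have e3 : (det3 z ![1, 0, 0] u).natAbs = (det3 ![1, 0, 0] u z).natAbs := by
      congr 1
      simp only [det3]; ring
    have hr : ∀ M : ℕ, M ^ 3 < 8 * N ^ 2 →
        K * (c * (s + 2 + 1) + 1) + B * (Nat.size M + 1) ≤
          K * (c * (s + 2 + 1) + 1) + B * ((2 * s + 5) / 3 + 1) := by
      intro M hM
      have := size_cube hs hM
      have : B * (Nat.size M + 1) ≤ B * ((2 * s + 5) / 3 + 1) :=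
        Nat.mul_le_mul_left _ (by omega)
      omega
    have h1 := (hexF_of_fills h gx gy gu ixy iyu ixu.symm rfl (ih _ b3)).mono (hr _ c3)
    have h2 := (hexF_of_fills h gy gz gu iyz izu iyu.symm e2 (ih _ b1)).mono (hr _ c1)
    have h3 := (hexF_of_fills h gz gx gu izx ixu izu.symm e3 (ih _ b2)).mono (hr _ c2)
    refine hexF_subdiv hP h gx gy gz gu ixy iyz izx ixu iyu izu h1 h2 h3 ?_
    exact num_ineq hs13 (by omega) (by omega)

end Pool.Agent.H68.SLF
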