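import Pool.Agent.H68.SLF.Path
import Pool.Agent.H94.SLF.M5

/-! Module M6a: flags and frames. -/

set_option autoImplicit false

namespace Pool.Agent.H68.SLF

/-- the vector `p` is a multiple of the point of the frame `g` -/
def On1 (g : G) (p : Fin 3 → ℤ) : Prop := (g⁻¹.1.mulVec p) 1 = 0 ∧ (g⁻¹.1.mulVec p) 2 = 0

/-- the vector `p` lies on the line of the frame `g` -/
def On2 (g : G) (p : Fin 3 → ℤ) : Prop := (g⁻¹.1.mulVec p) 2 = 0

lemma On1.on2 {g : G} {p : Fin 3 → ℤ} (h : On1 g p) : On2 g p := h.2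

lemma mem_P1 {g : G} : g ∈ P1 ↔ g.1 1 0 = 0 ∧ g.1 2 0 = 0 := Iff.rfl
lemma mem_P2 {g : G} : g ∈ P2 ↔ g.1 2 0 = 0 ∧ g.1 2 1 = 0 := Iff.rfl

lemma inv_split (g h : G) (p : Fin 3 → ℤ) :
    h⁻¹.1.mulVec p = (h⁻¹ * g).1.mulVec (g⁻¹.1.mulVec p) := by
  rw [m5_mul, m5_mul_inv]

lemma On1.of_rl {g h : G} {p : Fin 3 → ℤ} (r : Rl false g h) (hp : On1 g p) : On1 h p := by
  obtain ⟨q1, q2⟩ := (mem_P1.1 r.symm)
  obtain ⟨p1, p2⟩ := hp
  constructor
  · rw [inv_split g h, m5_mv, p1, p2, q1]; ring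
  · rw [inv_split g h, m5_mv, p1, p2, q2]; ring

lemma On2.of_rl {g h : G} {p : Fin 3 → ℤ} (r : Rl true g h) (hp : On2 g p) : On2 h p := by
  obtain ⟨q1, q2⟩ := (mem_P2.1 r.symm)
  unfold On2 at *
  rw [inv_split g h, m5_mv, hp, q1, q2]; ring

/-- first column -/
def pt (g : G) : Fin 3 → ℤ := g.1.mulVec ![1, 0, 0]

lemma pt_apply (g : G) (i : Fin 3) : pt g i = g.1 i 0 := by
  unfold pt; rw [m5_mv]; simp

lemma On1_pt (g : G) : On1 g (pt g) := by
  unfold On1 pt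
  rw [m5_inv_mul]
  simp

lemma On1_of_eq {g : G} {p : Fin 3 → ℤ} (h : pt g = p) : On1 g p := h ▸ On1_pt g

lemma Prim_pt (g : G) : Prim (pt g) := by
  refine ⟨fun i => g⁻¹.1 0 i, ?_⟩
  have := congrFun (m5_inv_mul g ![1, 0, 0]) 0
  rw [m5_mv] at this
  simpa [pt] using this

lemma Vs_pt {n : ℕ} {g : G} (h : Sz n g) : Vs n (pt g) := fun i => by
  rw [pt_apply]; exact (h i 0).1

lemma pt_translate (f g : G) : pt (f * g) = f.1.mulVec (pt g) := by
  unfold pt; rw [m5_mul]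

lemma rl_of_On1 {g h : G} {p : Fin 3 → ℤ} (hp : p ≠ 0) (hg : On1 g p) (hh : On1 h p) :
    Rl false g h := by
  show g⁻¹ * h ∈ P1
  -- `h⁻¹ p = (s,0,0)`, `s ≠ 0`
  set u := h⁻¹.1.mulVec p with hu
  have h1 : u 1 = 0 := hh.1
  have h2 : u 2 = 0 := hh.2
  have h0 : u 0 ≠ 0 := by
    intro h0
    apply hp
    have : p = h.1.mulVec u := by rw [hu, m5_mul_inv]
    rw [this]
    ext i
    rw [m5_mv, h0, h1, h2]
    simp
  have e : g⁻¹.1.mulVec p = (g⁻¹ * h).1.mulVec u := by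
    rw [hu, m5_mul, m5_mul_inv]
  obtain ⟨g1, g2⟩ := hg
  rw [e, m5_mv, h1, h2] at g1 g2
  rw [mem_P1]
  constructor
  · rcases mul_eq_zero.1 (show (g⁻¹ * h).1 1 0 * u 0 = 0 by linarith) with h | h
    · exact h
    · exact absurd h h0
  · rcases mul_eq_zero.1 (show (g⁻¹ * h).1 2 0 * u 0 = 0 by linarith) with h | h
    · exact h
    · exact absurd h h0

lemma rl_of_On2 {g h : G} {p q : Fin 3 → ℤ} (hi : Indep p q) (hg : On2 g p) (hg' : On2 g q)
    (hh : On2 h p) (hh' : On2 h q) : Rl true g h := by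
  show g⁻¹ * h ∈ P2
  set u := h⁻¹.1.mulVec p with hu
  set v := h⁻¹.1.mulVec q with hv
  have u2 : u 2 = 0 := hh
  have v2 : v 2 = 0 := hh'
  have hne : u 0 * v 1 - u 1 * v 0 ≠ 0 := by
    intro h0
    apply hi
    have ep : p = h.1.mulVec u := by rw [hu, m5_mul_inv]
    have eq' : q = h.1.mulVec v := by rw [hv, m5_mul_inv]
    rw [ep, eq']
    simp only [m5_mv, u2, v2]
    refine ⟨?_, ?_, ?_⟩
    · linear_combination (h.1 0 0 * h.1 1 1 - h.1 0 1 * h.1 1 0) * h0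
    · linear_combination (h.1 0 0 * h.1 2 1 - h.1 0 1 * h.1 2 0) * h0
    · linear_combination (h.1 1 0 * h.1 2 1 - h.1 1 1 * h.1 2 0) * h0
  have e : g⁻¹.1.mulVec p = (g⁻¹ * h).1.mulVec u := by
    rw [hu, m5_mul, m5_mul_inv]
  have e' : g⁻¹.1.mulVec q = (g⁻¹ * h).1.mulVec v := by
    rw [hv, m5_mul, m5_mul_inv]
  unfold On2 at hg hg'
  rw [e, m5_mv, u2] at hg
  rw [e', m5_mv, v2] at hg'
  rw [mem_P2]
  constructor
  · have : (g⁻¹ * h).1 2 0 * (u 0 * v 1 - u 1 * v 0) = 0 := by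
      linear_combination v 1 * hg - u 1 * hg'
    rcases mul_eq_zero.1 this with h | h
    · exact h
    · exact absurd h hne
  · have : (g⁻¹ * h).1 2 1 * (u 0 * v 1 - u 1 * v 0) = 0 := by
      linear_combination u 0 * hg' - v 0 * hg
    rcases mul_eq_zero.1 this with h | h
    · exact h
    · exact absurd h hne

/-- the alternative for quadrilaterals -/
lemma quad_alt {g0 g1 g2 g3 : G} (r0 : Rl false g0 g1) (r1 : Rl true g1 g2)
    (r2 : Rl false g2 g3) (r3 : Rl true g3 g0) : Rl false g1 g2 ∨ Rl true g0 g1 := by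
  -- the point of `g2` lies on the line of `g0` and on the line of `g1`
  have a1 : On2 g1 (pt g2) := (On1_pt g2).on2.of_rl r1.symm
  have a0 : On2 g0 (pt g2) := ((On1_pt g2).of_rl r2).on2.of_rl r3
  have b0 : On2 g0 (pt g0) := (On1_pt g0).on2
  have b1 : On2 g1 (pt g0) := ((On1_pt g0).of_rl r0).on2
  by_cases hi : Indep (pt g0) (pt g2)
  · right
    exact rl_of_On2 hi b0 a0 b1 a1
  · left
    -- dependent points: `pt g2` is a multiple of `pt g0`
    unfold Indep at hi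
    push Not at hi
    obtain ⟨h1, h2, h3⟩ := hi
    obtain ⟨r, hr⟩ := Prim_pt g0
    have hm : pt g2 = fun i => (r 0 * pt g2 0 + r 1 * pt g2 1 + r 2 * pt g2 2) * pt g0 i := by
      ext i
      fin_cases i
      · simp only [Fin.zero_eta, Fin.isValue]
        linear_combination (-pt g2 0) * hr - r 1 * h1 - r 2 * h2
      · simp only [Fin.mk_one, Fin.isValue]
        linear_combination (-pt g2 1) * hr + r 0 * h1 - r 2 * h3
      · simp only [Fin.reduceFinMk, Fin.isValue]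
        linear_combination (-pt g2 2) * hr + r 0 * h2 + r 1 * h3
    have hn : pt g2 ≠ 0 := by
      intro h
      obtain ⟨s, hs⟩ := Prim_pt g2
      rw [h] at hs
      simp at hs
    refine rl_of_On1 hn ?_ (On1_pt g2)
    obtain ⟨c1, c2⟩ := (On1_pt g0).of_rl r0
    rw [m5_mv] at c1 c2
    set t := r 0 * pt g2 0 + r 1 * pt g2 1 + r 2 * pt g2 2 with ht
    constructor
    · rw [m5_mv, congrFun hm 0, congrFun hm 1, congrFun hm 2]
      linear_combination t * c1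
    · rw [m5_mv, congrFun hm 0, congrFun hm 1, congrFun hm 2]
      linear_combination t * c2

end Pool.Agent.H68.SLF
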