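import Pool.Agent.H68.SLF.Hex

/-! Module M6d: normal forms and the global filling statement. -/

set_option autoImplicit false

namespace Pool.Agent.H68.SLF

lemma Sz_one {n : ℕ} (hn : 1 ≤ n) : Sz n (1 : G) := by
  have : 1 < 2 ^ n := Nat.one_lt_two_pow (by omega)
  intro i j
  rw [inv_one]
  fin_cases i <;> fin_cases j <;> simp <;> omega

/-- normal form word of `g` through the frames `h1`, `h2` -/
def nfw (w : Bool → G → List Lt) (h1 h2 g : G) : List Lt :=
  eg w false 1 h1 ++ (eg w true h1 h2 ++ eg w false h2 g)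

/-- normal form data -/
structure Nf (n : ℕ) (h1 h2 g : G) : Prop where
  r1 : Rl false 1 h1
  r2 : Rl true h1 h2
  r3 : Rl false h2 g
  s1 : Sz n h1
  s2 : Sz n h2

lemma Nf.mono {n m : ℕ} {h1 h2 g : G} (h : Nf n h1 h2 g) (hm : n ≤ m) : Nf m h1 h2 g :=
  ⟨h.r1, h.r2, h.r3, h.s1.mono hm, h.s2.mono hm⟩

lemma pt_one : pt (1 : G) = ![1, 0, 0] := by
  unfold pt; rw [m5_one]

lemma exists_nf : ∃ c : ℕ, ∀ n g, Sz n g → ∃ h1 h2, Nf (c * (n + 1)) h1 h2 g := by
  obtain ⟨c, hc⟩ := exists_Fr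
  refine ⟨2 * c + 1, fun n g hg => ?_⟩
  obtain ⟨F, hF⟩ := hc (n + 1)
  have gx : Gd (n + 1) ![1, 0, 0] := by
    refine ⟨⟨![1, 0, 0], by simp⟩, fun i => ?_⟩
    have : 1 < 2 ^ (n + 1) := Nat.one_lt_two_pow (by omega)
    fin_cases i <;> simp
  have gy : Gd (n + 1) (pt g) := ⟨Prim_pt g, Vs_pt (hg.mono (by omega))⟩
  have o1 : On1 (1 : G) ![1, 0, 0] := On1_of_eq pt_one
  by_cases hi : Indep ![1, 0, 0] (pt g)
  · refine ⟨F ![1, 0, 0] (pt g), F (pt g) ![1, 0, 0], ?_, hF.rl2 gx gy hi, ?_, ?_, ?_⟩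
    · exact rl_of_On1 gx.prim.ne_zero o1 (On1_of_eq (hF.pt _ _ gx.prim gx.vs gy.vs hi))
    · exact rl_of_On1 gy.prim.ne_zero (On1_of_eq (hF.pt _ _ gy.prim gy.vs gx.vs hi.symm))
        (On1_pt g)
    · exact (hF.sz _ _ gx.prim gx.vs gy.vs hi).mono (by nlinarith [Nat.zero_le (c * n)])
    · exact (hF.sz _ _ gy.prim gy.vs gx.vs hi.symm).mono (by nlinarith [Nat.zero_le (c * n)])
  · rw [← pt_one] at hi
    have hs : 1 ≤ (2 * c + 1) * (n + 1) := Nat.mul_pos (by omega) (by omega)
    exact ⟨1, 1, Rl.refl _ _, Rl.refl _ _, rl_of_dep hi, Sz_one hs, Sz_one hs⟩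

section

variable {w : Bool → G → List Lt} {C L K B : ℕ}

lemma nf_step (hP : Par w C L) (hf : ∀ N, Fills w L K B N) {n : ℕ} (hn : 1 ≤ n)
    {h1 h2 g h1' h2' g' : G} (a : Nf n h1 h2 g) (a' : Nf n h1' h2' g') (sg : Sz n g)
    (sg' : Sz n g') (r : Rl true g g') {m : ℕ}
    (hm : (K + 4 * B) * (n + 1) + 10 * (C * (2 * n + 3)) ≤ m) :
    H L m (nfw w h1 h2 g ++ eg w true g g') (nfw w h1' h2' g') := by
  have s0 : Sz n (1 : G) := Sz_one hn
  have q0 : Rl false h1' h1 := a'.r1.symm.trans a.r1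
  have hh := hf _ n h1' h1 h2 g g' h2' a'.s1 a.s1 a.s2 sg sg' a'.s2 q0 a.r2 a.r3 r a'.r3.symm
    a'.r2.symm rfl
  have hsz : Nat.size (det3 (pt h1') (pt h2) (pt g')).natAbs ≤ 3 * n + 3 := by
    rw [Nat.size_le]
    exact det3_bound (Vs_pt a'.s1) (Vs_pt a.s2) (Vs_pt sg')
  have hh := hh.mono (m := (K + 4 * B) * (n + 1)) (by
    have : B * (Nat.size (det3 (pt h1') (pt h2) (pt g')).natAbs + 1) ≤ B * (4 * (n + 1)) :=
      Nat.mul_le_mul_left _ (by omega)
    have e : (K + 4 * B) * (n + 1) = K * (n + 1) + B * (4 * (n + 1)) := by ring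
    omega)
  have l1 := hP.eg_len s0 a.s1 a.r1
  have l2 := hP.eg_len a.s1 a.s2 a.r2
  have l3 := hP.eg_len a.s2 sg a.r3
  have l4 := hP.eg_len sg sg' r
  have l1' := hP.eg_len s0 a'.s1 a'.r1
  have l2' := hP.eg_len a'.s1 a'.s2 a'.r2
  have l3' := hP.eg_len a'.s2 sg' a'.r3
  have l5 := hP.eg_len a'.s1 a.s1 q0
  have l2'' := hP.eg_len a'.s2 a'.s1 a'.r2.symm
  have l3'' := hP.eg_len sg' a'.s2 a'.r3.symm
  have b1 := hP.eg_back sg' a'.s2 a'.r3.symm
  have b2 := hP.eg_back a'.s2 a'.s1 a'.r2.symm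
  have b3 := hP.eg_comp s0 a'.s1 a.s1 a'.r1 q0
  unfold hexw at hh
  unfold nfw
  set c := C * (2 * n + 3) with hc
  set Q := (K + 4 * B) * (n + 1) with hQ
  have hY : H L (4 * c) ((eg w false g' h2' ++ eg w true h2' h1') ++
      (eg w true h1' h2' ++ eg w false h2' g')) [] := by
    have t1 := b2.ctx (eg w false g' h2') (eg w false h2' g') (m := 4 * c) (by omega)
    have t2 := b1.mono (m := 4 * c) (by omega)
    simp only [List.append_assoc, List.nil_append] at t1 t2 ⊢
    exact t1.trans t2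
  have hS : H L (Q + 8 * c) (eg w false h1' h1 ++ (eg w true h1 h2 ++ (eg w false h2 g ++
      eg w true g g'))) (eg w true h1' h2' ++ eg w false h2' g') := by
    refine H.solve (X := Q) (Y := 4 * c) ?_ hY (by simp only [List.length_append]; omega)
      (by simp only [List.length_append]; omega)
    simpa only [List.append_assoc] using hh
  have t1 := b3.symm.right (eg w true h1 h2 ++ (eg w false h2 g ++ eg w true g g')) (m := m) (by
    simp only [List.length_append]; omega)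
  have t2 := hS.left (eg w false 1 h1') (m := m) (by omega)
  simp only [List.append_assoc] at t1 t2 ⊢
  exact t1.trans t2

lemma nfw_len (hP : Par w C L) {n : ℕ} (hn : 1 ≤ n) {h1 h2 g : G} (a : Nf n h1 h2 g)
    (sg : Sz n g) : (nfw w h1 h2 g).length ≤ 3 * (C * (2 * n + 3)) := by
  have s0 : Sz n (1 : G) := Sz_one hn
  have l1 := hP.eg_len s0 a.s1 a.r1
  have l2 := hP.eg_len a.s1 a.s2 a.r2
  have l3 := hP.eg_len a.s2 sg a.r3
  unfold nfw
  simp only [List.length_append]
  omega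

/-- appending an edge of either type to a normal form -/
lemma nf_edge (hP : Par w C L) (hf : ∀ N, Fills w L K B N) {n : ℕ} (hn : 1 ≤ n)
    {h1 h2 g h1' h2' g' : G} (a : Nf n h1 h2 g) (a' : Nf n h1' h2' g') (sg : Sz n g)
    (sg' : Sz n g') {b : Bool} (r : Rl b g g') {m : ℕ}
    (hm : (K + 4 * B) * (n + 1) + 10 * (C * (2 * n + 3)) ≤ m) :
    H L m (nfw w h1 h2 g ++ eg w b g g') (nfw w h1' h2' g') := by
  cases b
  · have s0 : Sz n (1 : G) := Sz_one hn
    have l1 := hP.eg_len s0 a.s1 a.r1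
    have l2 := hP.eg_len a.s1 a.s2 a.r2
    have b1 := hP.eg_comp a.s2 sg sg' a.r3 r
    have a2 : Nf n h1 h2 g' := ⟨a.r1, a.r2, a.r3.trans r, a.s1, a.s2⟩
    have t2 := nf_step hP hf hn a2 a' sg' sg' (Rl.refl _ _) hm
    rw [hP.eg_self, List.append_nil] at t2
    unfold nfw at t2 ⊢
    set c := C * (2 * n + 3) with hc
    have t1 := b1.left (eg w false 1 h1 ++ eg w true h1 h2) (m := m) (by
      simp only [List.length_append]; omega)
    simp only [List.append_assoc] at t1 t2 ⊢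
    exact t1.trans t2
  · exact nf_step hP hf hn a a' sg sg' r hm

end

lemma ev_Sz (u : List Lt) : Sz (4 * u.length + 1) (ev u) := by
  induction u with
  | nil => exact Sz_one le_rfl
  | cons x u ih =>
    rw [ev_cons]
    refine (x.2.Sz.mul ih).mono ?_
    simp only [List.length_cons]
    omega

lemma eg_translate (w : Bool → G → List Lt) (b : Bool) (f g h : G) :
    eg w b (f * g) (f * h) = eg w b g h := by
  simp [eg, mul_inv_rev, mul_assoc]

theorem M46 : (∃ w C L₃, ∀ L ≥ L₃, Par w C L) →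
    (∀ g : G, ∃ w : List Lt, ev w = g) ∧
    ∃ L C : ℕ, ∀ w : List Lt, ev w = 1 → H L (C * (w.length + 1)) w [] := by
  rintro ⟨w, C, L₃, hPar⟩
  obtain ⟨K, B, L₀, hfill⟩ := fill w C
  obtain ⟨c, hc⟩ := exists_nf
  refine ⟨fun g => ?_, ?_⟩
  · have hP := hPar L₃ le_rfl
    obtain ⟨n, hn⟩ := exists_Sz g
    obtain ⟨h1, h2, a⟩ := hc n g hn
    refine ⟨nfw w h1 h2 g, ?_⟩
    unfold nfw eg
    rw [ev_append, ev_append, hP.ev_w _ _ a.r1, hP.ev_w _ _ a.r2, hP.ev_w _ _ a.r3]
    group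
  · -- constants
    obtain ⟨Q, hQ⟩ : ∃ Q, Q = 20 * (c + 1) * (c + 1) := ⟨_, rfl⟩
    obtain ⟨S, hS⟩ : ∃ S, S = (K + 4 * B) + 30 * C := ⟨_, rfl⟩
    obtain ⟨D, hD⟩ : ∃ D, D = S * (Q + 1) + 10 * (C * (2 * Q + 3)) +
      3 * (C * (2 * (3 * c + 3) + 3)) + 2 := ⟨_, rfl⟩
    obtain ⟨L, hL⟩ : ∃ L, L = L₃ + L₀ + 3 * (C * (2 * (3 * c + 3) + 3)) + 2 := ⟨_, rfl⟩
    have hP := hPar L (by omega)
    have hf := hfill L (by omega) hP
    have key : ∀ u : List Lt, ∀ h1 h2, Nf (Q * (u.length + 1)) h1 h2 (ev u) →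
        H L (D * (u.length + 1)) u (nfw w h1 h2 (ev u)) := by
      intro u
      induction u using List.reverseRecOn with
      | nil =>
        intro h1 h2 a
        have hQ1 : 1 ≤ Q * (([] : List Lt).length + 1) := Nat.mul_pos (by rw [hQ]; positivity)
          (by omega)
        have a1 : Nf (Q * (([] : List Lt).length + 1)) 1 1 (1 : G) :=
          ⟨Rl.refl _ _, Rl.refl _ _, Rl.refl _ _, Sz_one hQ1, Sz_one hQ1⟩
        have t := nf_edge (m := D * (([] : List Lt).length + 1)) hP hf hQ1 a1 a (Sz_one hQ1)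
          (Sz_one hQ1) (Rl.refl true 1) (by
            simp only [List.length_nil, zero_add, mul_one]
            have : (K + 4 * B) * (Q + 1) ≤ S * (Q + 1) := Nat.mul_le_mul_right _ (by omega)
            omega)
        simpa [nfw, hP.eg_self] using t
      | append_singleton u s ih =>
        intro h1' h2' a'
        obtain ⟨l, hl⟩ : ∃ l, l = u.length := ⟨_, rfl⟩
        have hl2 : (u ++ [s]).length = l + 1 := by simp [hl]
        rw [hl2] at a' ⊢
        rw [← hl] at ih
        obtain ⟨n, hn⟩ : ∃ n, n = Q * (l + 1 + 1) := ⟨_, rfl⟩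
        rw [← hn] at a'
        obtain ⟨g, hg⟩ : ∃ g, g = ev u := ⟨_, rfl⟩
        have hev : ev (u ++ [s]) = g * s.1 := by simp [hg]
        rw [hev] at a' ⊢
        rw [← hg] at ih
        -- sizes
        have hn1 : 1 ≤ n := by rw [hn, hQ]; exact Nat.mul_pos (by positivity) (by omega)
        have hn2 : 4 * l + 3 * c + 20 + c * (4 * l + 3 * c + 3 + 1) ≤ n := by
          rw [hn, hQ]; nlinarith [Nat.zero_le (c * c * l), Nat.zero_le (c * l), Nat.zero_le l,
            Nat.zero_le (c * c)]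
        have hn3 : c * (4 * l + 1 + 1) ≤ Q * (l + 1) := by
          rw [hQ]; nlinarith [Nat.zero_le (c * c * l), Nat.zero_le (c * l), Nat.zero_le l,
            Nat.zero_le (c * c)]
        have hQl : Q * (l + 1) ≤ n := by rw [hn]; exact Nat.mul_le_mul_left _ (by omega)
        have sg' : Sz (4 * l + 1) g := by rw [hg, hl]; exact ev_Sz u
        have sg : Sz n g := sg'.mono (by omega)
        have ss : Sz 2 s.1 := s.2.Sz
        have sgs : Sz n (g * s.1) := (sg'.mul ss).mono (by omega)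
        obtain ⟨k1, k2, hk⟩ := hc 2 s.1 ss
        have sk1' : Sz (4 * l + 3 * c + 3) (g * k1) := (sg'.mul hk.s1).mono (by omega)
        have sk2' : Sz (4 * l + 3 * c + 3) (g * k2) := (sg'.mul hk.s2).mono (by omega)
        have sk1 : Sz n (g * k1) := sk1'.mono (by omega)
        have sk2 : Sz n (g * k2) := sk2'.mono (by omega)
        obtain ⟨h1, h2, hh⟩ := hc _ g sg'
        obtain ⟨i1, i2, hi⟩ := hc _ _ sk1'
        obtain ⟨j1, j2, hj⟩ := hc _ _ sk2'
        have hh0 : Nf (Q * (l + 1)) h1 h2 g := hh.mono (by omega)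
        have hh1 : Nf n h1 h2 g := hh0.mono hQl
        have hi1 : Nf n i1 i2 (g * k1) := hi.mono (by omega)
        have hj1 : Nf n j1 j2 (g * k2) := hj.mono (by omega)
        have r1 : Rl false g (g * k1) := by simpa using hk.r1.translate g
        have r2 : Rl true (g * k1) (g * k2) := hk.r2.translate g
        have r3 : Rl false (g * k2) (g * s.1) := hk.r3.translate g
        -- lengths
        have e1 := hP.eg_len sg sk1 r1
        have e2 := hP.eg_len sk1 sk2 r2
        have e3 := hP.eg_len sk2 sgs r3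
        have e4 := nfw_len hP hn1 hh1 sg
        -- the letter as a normal form
        have hk' : Nf (3 * c + 3) k1 k2 s.1 := hk.mono (by omega)
        have ls := nfw_len hP (by omega) hk' (ss.mono (by omega))
        have hs1 : H L (3 * (C * (2 * (3 * c + 3) + 3)) + 1) [s] (nfw w k1 k2 s.1) := by
          refine H.one (by simp; omega) (by omega) (by simp) (by omega) ?_
          unfold nfw eg
          rw [ev_append, ev_append, hP.ev_w _ _ hk.r1, hP.ev_w _ _ hk.r2, hP.ev_w _ _ hk.r3]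
          simp
        have hs2 : nfw w k1 k2 s.1 = eg w false g (g * k1) ++ (eg w true (g * k1) (g * k2) ++
            eg w false (g * k2) (g * s.1)) := by
          unfold nfw
          rw [← eg_translate w false g 1 k1, mul_one, ← eg_translate w true g k1 k2,
            ← eg_translate w false g k2 s.1]
        rw [hs2] at hs1
        -- numerical facts
        have hnum : (K + 4 * B) * (n + 1) + 12 * (C * (2 * n + 3)) +
            (3 * (C * (2 * (3 * c + 3) + 3)) + 1) ≤ D * (l + 1 + 1) := by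
          have f1 : n + 1 ≤ (Q + 1) * (l + 1 + 1) := by rw [hn]; nlinarith
          have f2 : 2 * n + 3 ≤ (2 * Q + 3) * (l + 1 + 1) := by rw [hn]; nlinarith
          have f3 : (K + 4 * B) * (n + 1) ≤ (K + 4 * B) * ((Q + 1) * (l + 1 + 1)) :=
            Nat.mul_le_mul_left _ f1
          have f4 : C * (2 * n + 3) ≤ C * ((2 * Q + 3) * (l + 1 + 1)) := Nat.mul_le_mul_left _ f2
          have f5 : C * (2 * n + 3) ≤ 3 * (C * (n + 1)) := by nlinarith [Nat.zero_le (C * n)]
          have f6 : C * (n + 1) ≤ C * ((Q + 1) * (l + 1 + 1)) := Nat.mul_le_mul_left _ f1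
          have f7 : 3 * (C * (2 * (3 * c + 3) + 3)) ≤ 3 * (C * (2 * (3 * c + 3) + 3)) *
            (l + 1 + 1) := Nat.le_mul_of_pos_right _ (by omega)
          have f8 : D * (l + 1 + 1) = (K + 4 * B) * ((Q + 1) * (l + 1 + 1)) +
              30 * (C * ((Q + 1) * (l + 1 + 1))) + 10 * (C * ((2 * Q + 3) * (l + 1 + 1))) +
              3 * (C * (2 * (3 * c + 3) + 3)) * (l + 1 + 1) + 2 * (l + 1 + 1) := by
            rw [hD, hS]; ring
          omega
        have hD1 : D * (l + 1) + 1 ≤ D * (l + 1 + 1) := by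
          have : D * (l + 1 + 1) = D * (l + 1) + D := by ring
          omega
        -- the chain
        have t0 := (ih h1 h2 hh0).right [s] (m := D * (l + 1 + 1)) (by simpa using hD1)
        have t1 := hs1.left (nfw w h1 h2 g) (m := D * (l + 1 + 1)) (by omega)
        have t2 := (nf_edge hP hf hn1 hh1 hi1 sg sk1 r1 le_rfl).right
          (eg w true (g * k1) (g * k2) ++ eg w false (g * k2) (g * s.1))
          (m := D * (l + 1 + 1)) (by simp only [List.length_append]; omega)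
        have t3 := (nf_edge hP hf hn1 hi1 hj1 sk1 sk2 r2 le_rfl).right
          (eg w false (g * k2) (g * s.1)) (m := D * (l + 1 + 1)) (by omega)
        have t4 := (nf_edge hP hf hn1 hj1 a' sk2 sgs r3 le_rfl).mono (m := D * (l + 1 + 1))
          (by omega)
        simp only [List.append_assoc] at t0 t1 t2 t3 t4 ⊢
        exact t0.trans (t1.trans (t2.trans (t3.trans t4)))
    refine ⟨L, D, fun u hu => ?_⟩
    have hQ1 : 1 ≤ Q * (u.length + 1) := Nat.mul_pos (by rw [hQ]; positivity) (by omega)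
    have := key u 1 1 (by
      rw [hu]
      exact ⟨Rl.refl _ _, Rl.refl _ _, Rl.refl _ _, Sz_one hQ1, Sz_one hQ1⟩)
    rw [hu] at this
    simpa [nfw, hP.eg_self] using this

end Pool.Agent.H68.SLF
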