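import Pool.Agent.H68.SLF.Fill

/-! Module M6c: the hexagon lemma. -/

set_option autoImplicit false

namespace Pool.Agent.H68.SLF

lemma Fr.same {c m : ℕ} {F : (Fin 3 → ℤ) → (Fin 3 → ℤ) → G} (h : Fr c m F)
    {p q : Fin 3 → ℤ} (hp : Gd m p) (hq : Gd m q) (i : Indep p q) {g : G}
    (h1 : On1 g p) (h2 : On2 g q) : ∀ b, Rl b (F p q) g := by
  have k1 : On1 (F p q) p := On1_of_eq (h.pt p q hp.prim hp.vs hq.vs i)
  have k2 : On2 (F p q) q := h.on p q hp.prim hp.vs hq.vs i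
  intro b
  cases b
  · exact rl_of_On1 hp.prim.ne_zero k1 h1
  · exact rl_of_On2 i k1.on2 k2 h1.on2 h2

lemma det3_bound {n : ℕ} {x y z : Fin 3 → ℤ} (hx : Vs n x) (hy : Vs n y) (hz : Vs n z) :
    (det3 x y z).natAbs < 2 ^ (3 * n + 3) := by
  have key : ∀ i j k, (x i * (y j * z k)).natAbs < 2 ^ (3 * n) := by
    intro i j k
    rw [Int.natAbs_mul, Int.natAbs_mul, show 3 * n = n + (n + n) by ring, pow_add, pow_add]
    exact Nat.mul_lt_mul'' (hx i) (Nat.mul_lt_mul'' (hy j) (hz k))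
  have k1 := key 0 1 2
  have k2 := key 0 2 1
  have k3 := key 1 0 2
  have k4 := key 1 2 0
  have k5 := key 2 0 1
  have k6 := key 2 1 0
  have e : det3 x y z = x 0 * (y 1 * z 2) - x 0 * (y 2 * z 1) - x 1 * (y 0 * z 2) +
      x 1 * (y 2 * z 0) + x 2 * (y 0 * z 1) - x 2 * (y 1 * z 0) := by
    simp only [det3]; ring
  have hp : 2 ^ (3 * n + 3) = 8 * 2 ^ (3 * n) := by rw [pow_add]; ring
  rw [e]
  omega

theorem fill (w : Bool → G → List Lt) (C : ℕ) : ∃ K B L₀ : ℕ, ∀ L ≥ L₀, Par w C L →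
    ∀ N, Fills w L K B N := by
  obtain ⟨c, hc⟩ := exists_Fr
  obtain ⟨A, hA⟩ := M5_adapt
  obtain ⟨K, hK⟩ : ∃ K, K = 24 * C + 10 * (C * (2 * (A + 2 + 7 * c) + 3)) := ⟨_, rfl⟩
  obtain ⟨B, hB⟩ : ∃ B, B = 6 * (K * (c + 1) + 30 * C * (2 * c + 3)) +
    6 * (C * (2 * (c * 15) + 3)) := ⟨_, rfl⟩
  refine ⟨K, B, 6 * (C * (2 * (c * 15) + 3)), fun L hL hP N => ?_⟩
  induction N using Nat.strong_induction_on with
  | _ N ih =>
  intro n g0 g1 g2 g3 g4 g5 s0 s1 s2 s3 s4 s5 r0 r1 r2 r3 r4 r5 hN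
  have hdeg : 8 * (C * (2 * n + 3)) ≤ K * (n + 1) + B * (Nat.size N + 1) := by
    have h1 : 8 * (C * (2 * n + 3)) ≤ 24 * C * (n + 1) := by
      nlinarith [Nat.zero_le (C * n), Nat.zero_le C]
    have h2 : 24 * C * (n + 1) ≤ K * (n + 1) := Nat.mul_le_mul_right _ (by omega)
    omega
  rcases Nat.eq_zero_or_pos N with h0 | hpos
  · subst h0
    have hd : det3 (pt g0) (pt g2) (pt g4) = 0 := Int.natAbs_eq_zero.1 hN
    exact hP.degen s0 s1 s2 s3 s4 s5 r0 r1 r2 r3 r4 r5 (fun a b c d => quad_alt a b c d)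
      (hex_alt r0 r1 r2 r3 r4 r5 hd) hdeg
  · have hd0 : det3 (pt g0) (pt g2) (pt g4) ≠ 0 := by
      intro h
      rw [h] at hN
      simp at hN
      omega
    obtain ⟨f, hf, fx, fy2, fy, fz⟩ := hA n (pt g0) (pt g2) (pt g4) (Prim_pt g0) (Vs_pt s0)
      (Vs_pt s2) (Vs_pt s4) hd0
    rw [hN] at fy fz
    obtain ⟨F, hF⟩ := hc (Nat.size N + 2)
    -- translated frames
    rw [← hexw_translate w f⁻¹]
    have q0 := r0.translate f⁻¹
    have q1 := r1.translate f⁻¹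
    have q2 := r2.translate f⁻¹
    have q3 := r3.translate f⁻¹
    have q4 := r4.translate f⁻¹
    have q5 := r5.translate f⁻¹
    have p0 : pt (f⁻¹ * g0) = ![1, 0, 0] := by rw [pt_translate, fx]
    have p2 := pt_translate f⁻¹ g2
    have p4 := pt_translate f⁻¹ g4
    set y := f⁻¹.1.mulVec (pt g2) with hy
    set z := f⁻¹.1.mulVec (pt g4) with hz
    have hyp : Prim y := p2 ▸ Prim_pt (f⁻¹ * g2)
    have hzp : Prim z := p4 ▸ Prim_pt (f⁻¹ * g4)
    have hdet : (det3 ![1, 0, 0] y z).natAbs = N := by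
      rw [← hN, ← fx, hy, hz, m5_det3]
    have hd1 : det3 ![1, 0, 0] y z ≠ 0 := by
      intro h
      rw [h] at hdet
      simp at hdet
      omega
    obtain ⟨ixy, iyz, izx⟩ := Indep_of_det hd1
    have hNs : N < 2 ^ Nat.size N := Nat.lt_size_self N
    have hpow : 2 ^ (Nat.size N + 2) = 4 * 2 ^ Nat.size N := by rw [pow_add]; ring
    have gx : Gd (Nat.size N + 2) ![1, 0, 0] := by
      refine ⟨⟨![1, 0, 0], by simp⟩, fun i => ?_⟩
      have : 1 ≤ 2 ^ Nat.size N := Nat.one_le_two_pow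
      fin_cases i <;> simp
    have gy : Gd (Nat.size N + 2) y := ⟨hyp, fun i => by have := fy i; omega⟩
    have gz : Gd (Nat.size N + 2) z := ⟨hzp, fun i => by have := fz i; omega⟩
    have hred := reduced_hex (K := K) (B := B) hP hF hL (by omega) hyp hzp fy2 fy fz hdet
      (by omega) ih
    -- incidences
    have o0 : On1 (f⁻¹ * g0) ![1, 0, 0] := On1_of_eq p0
    have o2 : On1 (f⁻¹ * g2) y := On1_of_eq p2
    have o4 : On1 (f⁻¹ * g4) z := On1_of_eq p4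
    have o1 := o0.of_rl q0
    have o3 := o2.of_rl q2
    have o5 := o4.of_rl q4
    have f0 := hF.same gx gz izx.symm o0 (o5.on2.of_rl q5)
    have f1 := hF.same gx gy ixy o1 (o2.on2.of_rl q1.symm)
    have f2 := hF.same gy gx ixy.symm o2 (o1.on2.of_rl q1)
    have f3 := hF.same gy gz iyz o3 (o4.on2.of_rl q3.symm)
    have f4 := hF.same gz gy iyz.symm o4 (o3.on2.of_rl q3)
    have f5 := hF.same gz gx izx o5 (o0.on2.of_rl q5.symm)
    -- sizes
    have hsz : Nat.size N ≤ 3 * n + 3 := by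
      rw [Nat.size_le, ← hN]
      exact det3_bound (Vs_pt s0) (Vs_pt s2) (Vs_pt s4)
    obtain ⟨M, hM⟩ : ∃ M, M = A * (n + 1) + n + 2 + c * (Nat.size N + 3) := ⟨_, rfl⟩
    have tg : ∀ {g : G}, Sz n g → Sz M (f⁻¹ * g) := fun hg => (hf.inv.mul hg).mono (by omega)
    have ta : ∀ {p q : Fin 3 → ℤ}, Gd (Nat.size N + 2) p → Gd (Nat.size N + 2) q → Indep p q →
        Sz M (F p q) := fun hp hq i => (hF.sz _ _ hp.prim hp.vs hq.vs i).mono (by
          have : c * (Nat.size N + 2 + 1) = c * (Nat.size N + 3) := by ring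
          omega)
    refine hP.transfer (X := B * (Nat.size N + 1)) (tg s0) (tg s1) (tg s2) (tg s3) (tg s4) (tg s5)
      (ta gx gz izx.symm) (ta gx gy ixy) (ta gy gx ixy.symm) (ta gy gz iyz) (ta gz gy iyz.symm)
      (ta gz gx izx) q0 q1 q2 q3 q4 q5 f0 f1 f2 f3 f4 f5 hred ?_
    have hM' : 2 * M + 3 ≤ (2 * (A + 2 + 7 * c) + 3) * (n + 1) := by
      have h1 : c * (Nat.size N + 3) ≤ c * (7 * (n + 1)) := Nat.mul_le_mul_left _ (by omega)
      rw [hM]
      nlinarith [Nat.zero_le n]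
    have h2 : C * (2 * M + 3) ≤ C * ((2 * (A + 2 + 7 * c) + 3) * (n + 1)) :=
      Nat.mul_le_mul_left _ hM'
    have h3 : K * (n + 1) = 24 * C * (n + 1) +
        10 * (C * ((2 * (A + 2 + 7 * c) + 3) * (n + 1))) := by
      rw [hK]; ring
    omega

end Pool.Agent.H68.SLF
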