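import Pool.Agent.H68.SLF.Defs

/-! Module M4: path homotopies between frames. -/

set_option autoImplicit false

namespace Pool.Agent.H68.SLF

/-- `g` and `h` lie in the same coset of the parabolic subgroup `Pb b` -/
def Rl (b : Bool) (g h : G) : Prop := g⁻¹ * h ∈ Pb b

lemma Rl.refl (b : Bool) (g : G) : Rl b g g := by
  unfold Rl
  rw [inv_mul_cancel]
  exact (Pb b).one_mem

lemma Rl.symm {b : Bool} {g h : G} (r : Rl b g h) : Rl b h g := by
  unfold Rl at *
  have := (Pb b).inv_mem r
  rwa [mul_inv_rev, inv_inv] at this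

lemma Rl.trans {b : Bool} {g h k : G} (r : Rl b g h) (s : Rl b h k) : Rl b g k := by
  unfold Rl at *
  have := (Pb b).mul_mem r s
  rwa [mul_assoc, mul_inv_cancel_left] at this

lemma Sz.quot {n : ℕ} {g h : G} (hg : Sz n g) (hh : Sz n h) : Sz (2 * n + 2) (g⁻¹ * h) := by
  have := hg.inv.mul hh
  rwa [← two_mul] at this

/-- the edge word from `g` to `h` -/
def eg (w : Bool → G → List Lt) (b : Bool) (g h : G) : List Lt := w b (g⁻¹ * h)

/-- the hexagon word -/
def hexw (w : Bool → G → List Lt) (g0 g1 g2 g3 g4 g5 : G) : List Lt :=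
  eg w false g0 g1 ++ (eg w true g1 g2 ++ (eg w false g2 g3 ++ (eg w true g3 g4 ++
    (eg w false g4 g5 ++ eg w true g5 g0))))

lemma hexw_translate (w : Bool → G → List Lt) (f g0 g1 g2 g3 g4 g5 : G) :
    hexw w (f * g0) (f * g1) (f * g2) (f * g3) (f * g4) (f * g5) = hexw w g0 g1 g2 g3 g4 g5 := by
  simp [hexw, eg, mul_inv_rev, mul_assoc]

lemma Rl.translate {b : Bool} {g h : G} (f : G) (r : Rl b g h) : Rl b (f * g) (f * h) := by
  unfold Rl at *
  simpa [mul_inv_rev, mul_assoc] using r

section general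

variable {L : ℕ}

lemma H.solve {X Y m : ℕ} {u v v' : List Lt} (h1 : H L X (u ++ v) []) (h2 : H L Y (v ++ v') [])
    (hm1 : X + v'.length ≤ m) (hm2 : Y + u.length ≤ m) : H L m u v' := by
  have t1 := h2.symm.left u (m := m) hm2
  have t2 := h1.right v' (m := m) hm1
  simp only [List.append_nil, List.nil_append, List.append_assoc] at t1 t2
  exact t1.trans t2

end general

section

variable {w : Bool → G → List Lt} {C L : ℕ}

namespace Par

lemma eg_self (hP : Par w C L) (b : Bool) (g : G) : eg w b g g = [] := by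
  unfold eg
  rw [inv_mul_cancel]
  exact hP.one b

lemma eg_len (hP : Par w C L) {n : ℕ} {b : Bool} {g h : G} (hg : Sz n g) (hh : Sz n h)
    (r : Rl b g h) : (eg w b g h).length ≤ C * (2 * n + 3) :=
  hP.len_w b _ (2 * n + 2) r (hg.quot hh)

lemma eg_comp (hP : Par w C L) {n : ℕ} {b : Bool} {g h k : G} (hg : Sz n g) (hh : Sz n h)
    (hk : Sz n k) (r : Rl b g h) (s : Rl b h k) :
    H L (C * (2 * n + 3)) (eg w b g h ++ eg w b h k) (eg w b g k) := by
  have := hP.comp b _ _ (2 * n + 2) r s (hg.quot hh) (hh.quot hk)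
  rwa [mul_assoc, mul_inv_cancel_left] at this

lemma eg_conv (hP : Par w C L) {n : ℕ} {g h : G} (hg : Sz n g) (hh : Sz n h)
    (r : Rl false g h) (s : Rl true g h) (b b' : Bool) :
    H L (C * (2 * n + 3)) (eg w b g h) (eg w b' g h) := by
  have := hP.conv _ (2 * n + 2) r s (hg.quot hh)
  cases b <;> cases b'
  · exact H.refl _
  · exact this
  · exact this.symm
  · exact H.refl _

lemma eg_back (hP : Par w C L) {n : ℕ} {b : Bool} {g h : G} (hg : Sz n g) (hh : Sz n h)
    (r : Rl b g h) : H L (C * (2 * n + 3)) (eg w b g h ++ eg w b h g) [] := by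
  have := hP.eg_comp hg hh hg r r.symm
  rwa [hP.eg_self] at this

/-- sliding an edge along a change of frames inside the same flags -/
lemma slide (hP : Par w C L) {n : ℕ} {b b' : Bool} {a g a' g' : G} (ha : Sz n a) (hg : Sz n g)
    (ha' : Sz n a') (hg' : Sz n g') (r1 : Rl false a g) (r2 : Rl true a g)
    (r1' : Rl false a' g') (r2' : Rl true a' g') (r : Rl b' g g') {m : ℕ}
    (hm : 2 * (C * (2 * n + 3)) ≤ m) :
    H L m (eg w b a g ++ eg w b' g g') (eg w b' a a' ++ eg w b' a' g') := by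
  have rag : Rl b' a g := by
    cases b'
    · exact r1
    · exact r2
  have rag' : Rl b' a' g' := by
    cases b'
    · exact r1'
    · exact r2'
  have raa : Rl b' a a' := (rag.trans r).trans rag'.symm
  have t1 := (hP.eg_conv ha hg r1 r2 b b').right (eg w b' g g') (m := m) (by
    have := hP.eg_len hg hg' r; omega)
  have t2 := (hP.eg_comp ha hg hg' rag r).mono (m := m) (by omega)
  have t3 := (hP.eg_comp ha ha' hg' raa rag').symm.mono (m := m) (by omega)
  exact t1.trans (t2.trans t3)

/-- quadrilaterals are trivial -/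
lemma quad (hP : Par w C L) {n : ℕ} {g0 g1 g2 g3 : G} (s0 : Sz n g0) (s1 : Sz n g1)
    (s2 : Sz n g2) (s3 : Sz n g3) (r0 : Rl false g0 g1) (r1 : Rl true g1 g2)
    (r2 : Rl false g2 g3) (r3 : Rl true g3 g0) (hd : Rl false g1 g2 ∨ Rl true g0 g1) {m : ℕ}
    (hm : 4 * (C * (2 * n + 3)) ≤ m) :
    H L m (eg w false g0 g1 ++ (eg w true g1 g2 ++ (eg w false g2 g3 ++ eg w true g3 g0))) [] := by
  have l0 := hP.eg_len s0 s1 r0
  have l1 := hP.eg_len s1 s2 r1
  have l2 := hP.eg_len s2 s3 r2
  have l3 := hP.eg_len s3 s0 r3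
  -- reduce to one type
  obtain ⟨b, q0, q1, q2, q3⟩ : ∃ b : Bool, (Rl false g0 g1 ∧ (Rl b g0 g1)) ∧ Rl b g1 g2 ∧
      Rl b g2 g3 ∧ Rl b g3 g0 := by
    rcases hd with h | h
    · exact ⟨false, ⟨r0, r0⟩, h, r2, (r2.symm.trans (h.symm.trans r0.symm))⟩
    · refine ⟨true, ⟨r0, h⟩, r1, ?_, r3⟩
      exact (r1.symm.trans h.symm).trans r3.symm
  have k0 := hP.eg_len s0 s1 q0.2
  have k1 := hP.eg_len s1 s2 q1
  have k2 := hP.eg_len s2 s3 q2
  have k3 := hP.eg_len s3 s0 q3
  set c := C * (2 * n + 3) with hc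
  have c0 : H L c (eg w false g0 g1) (eg w b g0 g1) := by
    cases b
    · exact H.refl _
    · exact hP.eg_conv s0 s1 r0 q0.2 _ _
  have c1 : H L c (eg w true g1 g2) (eg w b g1 g2) := by
    cases b
    · exact hP.eg_conv s1 s2 q1 r1 _ _
    · exact H.refl _
  have c2 : H L c (eg w false g2 g3) (eg w b g2 g3) := by
    cases b
    · exact H.refl _
    · exact hP.eg_conv s2 s3 r2 q2 _ _
  have c3 : H L c (eg w true g3 g0) (eg w b g3 g0) := by
    cases b
    · exact hP.eg_conv s3 s0 q3 r3 _ _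
    · exact H.refl _
  have t0 := c0.right (eg w true g1 g2 ++ (eg w false g2 g3 ++ eg w true g3 g0)) (m := m) (by
    simp only [List.length_append]; omega)
  have t1 := c1.ctx (eg w b g0 g1) (eg w false g2 g3 ++ eg w true g3 g0) (m := m) (by
    simp only [List.length_append]; omega)
  have t2 := c2.ctx (eg w b g0 g1 ++ eg w b g1 g2) (eg w true g3 g0) (m := m) (by
    simp only [List.length_append]; omega)
  have t3 := c3.left (eg w b g0 g1 ++ (eg w b g1 g2 ++ eg w b g2 g3)) (m := m) (by
    simp only [List.length_append]; omega)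
  have t4 := (hP.eg_comp s0 s1 s2 q0.2 q1).right (eg w b g2 g3 ++ eg w b g3 g0) (m := m) (by
    simp only [List.length_append]; omega)
  have t5 := (hP.eg_comp s0 s2 s3 (q0.2.trans q1) q2).right (eg w b g3 g0) (m := m) (by omega)
  have t6 := (hP.eg_back s0 s3 q3.symm).mono (m := m) (by omega)
  simp only [List.append_assoc] at t0 t1 t2 t3 t4 t5 t6 ⊢
  exact t0.trans (t1.trans (t2.trans (t3.trans (t4.trans (t5.trans t6)))))

/-- transfer between two hexagons with the same flags -/
lemma transfer (hP : Par w C L) {n X : ℕ} {g0 g1 g2 g3 g4 g5 a0 a1 a2 a3 a4 a5 : G}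
    (s0 : Sz n g0) (s1 : Sz n g1) (s2 : Sz n g2) (s3 : Sz n g3) (s4 : Sz n g4) (s5 : Sz n g5)
    (z0 : Sz n a0) (z1 : Sz n a1) (z2 : Sz n a2) (z3 : Sz n a3) (z4 : Sz n a4) (z5 : Sz n a5)
    (r0 : Rl false g0 g1) (r1 : Rl true g1 g2) (r2 : Rl false g2 g3) (r3 : Rl true g3 g4)
    (r4 : Rl false g4 g5) (r5 : Rl true g5 g0)
    (f0 : ∀ b, Rl b a0 g0) (f1 : ∀ b, Rl b a1 g1) (f2 : ∀ b, Rl b a2 g2)
    (f3 : ∀ b, Rl b a3 g3) (f4 : ∀ b, Rl b a4 g4) (f5 : ∀ b, Rl b a5 g5)
    (h : H L X (hexw w a0 a1 a2 a3 a4 a5) []) {m : ℕ} (hm : X + 10 * (C * (2 * n + 3)) ≤ m) :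
    H L m (hexw w g0 g1 g2 g3 g4 g5) [] := by
  have q : ∀ {b : Bool} {a a' g g' : G}, (∀ b, Rl b a g) → (∀ b, Rl b a' g') → Rl b g g' →
      Rl b a a' := fun f f' r => ((f _).trans r).trans (f' _).symm
  have l0 := hP.eg_len s0 s1 r0
  have l1 := hP.eg_len s1 s2 r1
  have l2 := hP.eg_len s2 s3 r2
  have l3 := hP.eg_len s3 s4 r3
  have l4 := hP.eg_len s4 s5 r4
  have l5 := hP.eg_len s5 s0 r5
  have k0 := hP.eg_len z0 z1 (q f0 f1 r0)
  have k1 := hP.eg_len z1 z2 (q f1 f2 r1)
  have k2 := hP.eg_len z2 z3 (q f2 f3 r2)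
  have k3 := hP.eg_len z3 z4 (q f3 f4 r3)
  have k4 := hP.eg_len z4 z5 (q f4 f5 r4)
  have k5 := hP.eg_len z5 z0 (q f5 f0 r5)
  have p0 := hP.eg_len s0 z0 (f0 false).symm
  have p0' := hP.eg_len z0 s0 (f0 true)
  have p1 := hP.slide (b := false) (b' := false) z0 s0 z1 s1 (f0 _) (f0 _) (f1 _) (f1 _) r0 le_rfl
  have p2 := hP.slide (b := false) (b' := true) z1 s1 z2 s2 (f1 _) (f1 _) (f2 _) (f2 _) r1 le_rfl
  have p3 := hP.slide (b := true) (b' := false) z2 s2 z3 s3 (f2 _) (f2 _) (f3 _) (f3 _) r2 le_rfl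
  have p4 := hP.slide (b := false) (b' := true) z3 s3 z4 s4 (f3 _) (f3 _) (f4 _) (f4 _) r3 le_rfl
  have p5 := hP.slide (b := true) (b' := false) z4 s4 z5 s5 (f4 _) (f4 _) (f5 _) (f5 _) r4 le_rfl
  have p6 := hP.slide (b := false) (b' := true) z5 s5 z0 s0 (f5 _) (f5 _) (f0 _) (f0 _) r5 le_rfl
  have p7 := (hP.eg_back s0 z0 (f0 false).symm)
  have p8 := (hP.eg_conv z0 s0 (f0 false) (f0 true) true false)
  unfold hexw at h ⊢
  set c := C * (2 * n + 3) with hc
  have t0 := p7.symm.right (eg w false g0 g1 ++ (eg w true g1 g2 ++ (eg w false g2 g3 ++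
    (eg w true g3 g4 ++ (eg w false g4 g5 ++ eg w true g5 g0))))) (m := m) (by
    simp only [List.length_append]; omega)
  have t1 := p1.ctx (eg w false g0 a0) (eg w true g1 g2 ++ (eg w false g2 g3 ++
    (eg w true g3 g4 ++ (eg w false g4 g5 ++ eg w true g5 g0)))) (m := m) (by
    simp only [List.length_append]; omega)
  have t2 := p2.ctx (eg w false g0 a0 ++ eg w false a0 a1) (eg w false g2 g3 ++
    (eg w true g3 g4 ++ (eg w false g4 g5 ++ eg w true g5 g0))) (m := m) (by
    simp only [List.length_append]; omega)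
  have t3 := p3.ctx (eg w false g0 a0 ++ (eg w false a0 a1 ++ eg w true a1 a2))
    (eg w true g3 g4 ++ (eg w false g4 g5 ++ eg w true g5 g0)) (m := m) (by
    simp only [List.length_append]; omega)
  have t4 := p4.ctx (eg w false g0 a0 ++ (eg w false a0 a1 ++ (eg w true a1 a2 ++
    eg w false a2 a3))) (eg w false g4 g5 ++ eg w true g5 g0) (m := m) (by
    simp only [List.length_append]; omega)
  have t5 := p5.ctx (eg w false g0 a0 ++ (eg w false a0 a1 ++ (eg w true a1 a2 ++
    (eg w false a2 a3 ++ eg w true a3 a4)))) (eg w true g5 g0) (m := m) (by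
    simp only [List.length_append]; omega)
  have t6 := p6.left (eg w false g0 a0 ++ (eg w false a0 a1 ++ (eg w true a1 a2 ++
    (eg w false a2 a3 ++ (eg w true a3 a4 ++ eg w false a4 a5))))) (m := m) (by
    simp only [List.length_append]; omega)
  have t7 := h.ctx (eg w false g0 a0) (eg w true a0 g0) (m := m) (by omega)
  have t8 := p8.left (eg w false g0 a0) (m := m) (by omega)
  have t9 := p7.mono (m := m) (by omega)
  simp only [List.append_assoc, List.nil_append] at t0 t1 t2 t3 t4 t5 t6 t7 t8 t9 ⊢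
  exact t0.trans (t1.trans (t2.trans (t3.trans (t4.trans (t5.trans (t6.trans (t7.trans
    (t8.trans t9))))))))

/-- the consequence of the triviality of the hexagon `(x,y,w)` used in the subdivision -/
lemma tri (hP : Par w C L) {n X : ℕ} {xw xy yx yw wy wx : G}
    (s0 : Sz n xw) (s1 : Sz n xy) (s2 : Sz n yx) (s3 : Sz n yw) (s4 : Sz n wy) (s5 : Sz n wx)
    (r0 : Rl false xw xy) (r1 : Rl true xy yx) (r2 : Rl false yx yw) (r3 : Rl true yw wy)
    (r4 : Rl false wy wx) (r5 : Rl true wx xw)
    (h : H L X (hexw w xw xy yx yw wy wx) []) {m : ℕ} (hm : X + 10 * (C * (2 * n + 3)) ≤ m) :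
    H L m (eg w false xw xy ++ (eg w true xy yx ++ eg w false yx yw))
      (eg w true xw wx ++ (eg w false wx wy ++ eg w true wy yw)) := by
  have l0 := hP.eg_len s0 s1 r0
  have l1 := hP.eg_len s1 s2 r1
  have l2 := hP.eg_len s2 s3 r2
  have l3 := hP.eg_len s3 s4 r3
  have l4 := hP.eg_len s4 s5 r4
  have l5 := hP.eg_len s5 s0 r5
  have l3' := hP.eg_len s4 s3 r3.symm
  have l4' := hP.eg_len s5 s4 r4.symm
  have l5' := hP.eg_len s0 s5 r5.symm
  have b3 := hP.eg_back s3 s4 r3
  have b4 := hP.eg_back s4 s5 r4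
  have b5 := hP.eg_back s5 s0 r5
  unfold hexw at h
  set c := C * (2 * n + 3) with hc
  have h' : H L (6 * c) ((eg w true yw wy ++ (eg w false wy wx ++ eg w true wx xw)) ++
      (eg w true xw wx ++ (eg w false wx wy ++ eg w true wy yw))) [] := by
    have t1 := b5.ctx (eg w true yw wy ++ eg w false wy wx) (eg w false wx wy ++ eg w true wy yw)
      (m := 6 * c) (by simp only [List.length_append]; omega)
    have t2 := b4.ctx (eg w true yw wy) (eg w true wy yw)
      (m := 6 * c) (by omega)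
    have t3 := b3.mono (m := 6 * c) (by omega)
    simp only [List.append_assoc, List.nil_append] at t1 t2 t3 ⊢
    exact t1.trans (t2.trans t3)
  refine H.solve (X := X) (Y := 6 * c) ?_ h' (by simp only [List.length_append]; omega)
    (by simp only [List.length_append]; omega)
  simpa only [List.append_assoc] using h

/-- subdivision of a hexagon at a new point -/
lemma subdiv (hP : Par w C L) {n X : ℕ} {xy yx yz zy zx xz xw wx yw wy zw wz : G}
    (sxy : Sz n xy) (syx : Sz n yx) (syz : Sz n yz) (szy : Sz n zy) (szx : Sz n zx)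
    (sxz : Sz n xz) (sxw : Sz n xw) (swx : Sz n wx) (syw : Sz n yw) (swy : Sz n wy)
    (szw : Sz n zw) (swz : Sz n wz)
    (e1 : Rl true xy yx) (e2 : Rl true yz zy) (e3 : Rl true zx xz) (e4 : Rl true xw wx)
    (e5 : Rl true yw wy) (e6 : Rl true zw wz)
    (x1 : Rl false xz xy) (x2 : Rl false xz xw) (y1 : Rl false yx yz) (y2 : Rl false yx yw)
    (z1 : Rl false zy zx) (z2 : Rl false zy zw) (w1 : Rl false wx wy) (w2 : Rl false wy wz)
    (h1 : H L X (hexw w xw xy yx yw wy wx) [])
    (h2 : H L X (hexw w yw yz zy zw wz wy) [])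
    (h3 : H L X (hexw w zw zx xz xw wx wz) []) {m : ℕ} (hm : X + 30 * (C * (2 * n + 3)) ≤ m) :
    H L m (hexw w xz xy yx yz zy zx) [] := by
  have x3 : Rl false xw xy := x2.symm.trans x1
  have y3 : Rl false yw yz := y2.symm.trans y1
  have z3 : Rl false zw zx := z2.symm.trans z1
  have w3 : Rl false wz wx := (w1.trans w2).symm
  have q1 := hP.tri sxw sxy syx syw swy swx x3 e1 y2 e5 w1.symm e4.symm h1 le_rfl
  have q2 := hP.tri syw syz szy szw swz swy y3 e2 z2 e6 w2.symm e5.symm h2 le_rfl
  have q3 := hP.tri szw szx sxz sxw swx swz z3 e3 x2 e4 w3.symm e6.symm h3 le_rfl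
  have l1 := hP.eg_len sxz sxy x1
  have l2 := hP.eg_len sxy syx e1
  have l3 := hP.eg_len syx syz y1
  have l4 := hP.eg_len syz szy e2
  have l5 := hP.eg_len szy szx z1
  have l6 := hP.eg_len szx sxz e3
  have l7 := hP.eg_len sxz sxw x2
  have l8 := hP.eg_len sxw sxy x3
  have l9 := hP.eg_len syx syw y2
  have l10 := hP.eg_len syw syz y3
  have l11 := hP.eg_len szy szw z2
  have l12 := hP.eg_len szw szx z3
  have l13 := hP.eg_len sxw sxz x2.symm
  have l14 := hP.eg_len sxw swx e4
  have l15 := hP.eg_len swx sxw e4.symm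
  have l16 := hP.eg_len syw swy e5
  have l17 := hP.eg_len swy syw e5.symm
  have l18 := hP.eg_len szw swz e6
  have l19 := hP.eg_len swz szw e6.symm
  have l20 := hP.eg_len swx swy w1
  have l21 := hP.eg_len swy swz w2
  have l22 := hP.eg_len swz swx w3
  have c1 := (hP.eg_comp sxz sxw sxy x2 x3).symm
  have c2 := (hP.eg_comp syx syw syz y2 y3).symm
  have c3 := (hP.eg_comp szy szw szx z2 z3).symm
  have c4 := (hP.eg_back sxz sxw x2)
  have c5 := (hP.eg_back swy syw e5.symm)
  have c6 := (hP.eg_back swz szw e6.symm)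
  have c7 := (hP.eg_back swx sxw e4.symm)
  have c8 := (hP.eg_back sxw swx e4)
  have c9 := (hP.eg_comp swx swy swz w1 w2)
  have c10 := (hP.eg_back swx swz w3.symm)
  unfold hexw
  set c := C * (2 * n + 3) with hc
  -- the big word, refined
  have t1 := c1.right (eg w true xy yx ++ (eg w false yx yz ++ (eg w true yz zy ++
    (eg w false zy zx ++ eg w true zx xz)))) (m := m) (by simp only [List.length_append]; omega)
  have t2 := c2.ctx (eg w false xz xw ++ (eg w false xw xy ++ eg w true xy yx))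
    (eg w true yz zy ++ (eg w false zy zx ++ eg w true zx xz)) (m := m)
    (by simp only [List.length_append]; omega)
  have t3 := c3.ctx (eg w false xz xw ++ (eg w false xw xy ++ (eg w true xy yx ++
    (eg w false yx yw ++ (eg w false yw yz ++ eg w true yz zy))))) (eg w true zx xz) (m := m)
    (by simp only [List.length_append]; omega)
  have t4 := c4.symm.left (eg w false xz xw ++ (eg w false xw xy ++ (eg w true xy yx ++
    (eg w false yx yw ++ (eg w false yw yz ++ (eg w true yz zy ++ (eg w false zy zw ++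
    (eg w false zw zx ++ eg w true zx xz)))))))) (m := m)
    (by simp only [List.length_append]; omega)
  -- replace the three pieces
  have t5 := q1.ctx (eg w false xz xw) (eg w false yw yz ++ (eg w true yz zy ++
    (eg w false zy zw ++ (eg w false zw zx ++ (eg w true zx xz ++ (eg w false xz xw ++
    eg w false xw xz)))))) (m := m) (by simp only [List.length_append]; omega)
  have t6 := q2.ctx (eg w false xz xw ++ (eg w true xw wx ++ (eg w false wx wy ++
    eg w true wy yw))) (eg w false zw zx ++ (eg w true zx xz ++ (eg w false xz xw ++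
    eg w false xw xz))) (m := m) (by simp only [List.length_append]; omega)
  have t7 := q3.ctx (eg w false xz xw ++ (eg w true xw wx ++ (eg w false wx wy ++
    (eg w true wy yw ++ (eg w true yw wy ++ (eg w false wy wz ++ eg w true wz zw))))))
    (eg w false xw xz) (m := m) (by simp only [List.length_append]; omega)
  have t8 := c5.ctx (eg w false xz xw ++ (eg w true xw wx ++ eg w false wx wy))
    (eg w false wy wz ++ (eg w true wz zw ++ (eg w true zw wz ++ (eg w false wz wx ++
    (eg w true wx xw ++ eg w false xw xz))))) (m := m) (by simp only [List.length_append]; omega)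
  have t9 := c6.ctx (eg w false xz xw ++ (eg w true xw wx ++ (eg w false wx wy ++
    eg w false wy wz))) (eg w false wz wx ++ (eg w true wx xw ++ eg w false xw xz)) (m := m)
    (by simp only [List.length_append]; omega)
  have t10 := c9.ctx (eg w false xz xw ++ eg w true xw wx)
    (eg w false wz wx ++ (eg w true wx xw ++ eg w false xw xz)) (m := m)
    (by simp only [List.length_append]; omega)
  have t11 := c10.ctx (eg w false xz xw ++ eg w true xw wx)
    (eg w true wx xw ++ eg w false xw xz) (m := m)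
    (by simp only [List.length_append]; omega)
  have t12 := c8.ctx (eg w false xz xw) (eg w false xw xz) (m := m) (by omega)
  have t13 := c4.mono (m := m) (by omega)
  simp only [List.append_assoc, List.nil_append, List.append_nil] at t1 t2 t3 t4 t5 t6 t7
  simp only [List.append_assoc, List.nil_append, List.append_nil] at t8 t9 t10 t11 t12 t13 ⊢
  exact t1.trans (t2.trans (t3.trans (t4.trans (t5.trans (t6.trans (t7.trans (t8.trans (t9.trans
    (t10.trans (t11.trans (t12.trans t13)))))))))))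

/-- degenerate hexagons -/
lemma degen (hP : Par w C L) {n : ℕ} {g0 g1 g2 g3 g4 g5 : G}
    (s0 : Sz n g0) (s1 : Sz n g1) (s2 : Sz n g2) (s3 : Sz n g3) (s4 : Sz n g4) (s5 : Sz n g5)
    (r0 : Rl false g0 g1) (r1 : Rl true g1 g2) (r2 : Rl false g2 g3) (r3 : Rl true g3 g4)
    (r4 : Rl false g4 g5) (r5 : Rl true g5 g0)
    (hq : ∀ {h0 h1 h2 h3 : G}, Rl false h0 h1 → Rl true h1 h2 → Rl false h2 h3 → Rl true h3 h0 →
      Rl false h1 h2 ∨ Rl true h0 h1)
    (hd : Rl false g1 g2 ∨ Rl true g2 g3 ∨ Rl false g3 g4) {m : ℕ}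
    (hm : 8 * (C * (2 * n + 3)) ≤ m) :
    H L m (hexw w g0 g1 g2 g3 g4 g5) [] := by
  have l0 := hP.eg_len s0 s1 r0
  have l1 := hP.eg_len s1 s2 r1
  have l2 := hP.eg_len s2 s3 r2
  have l3 := hP.eg_len s3 s4 r3
  have l4 := hP.eg_len s4 s5 r4
  have l5 := hP.eg_len s5 s0 r5
  unfold hexw
  rcases hd with hd | hd | hd
  · have c1 := hP.eg_conv s1 s2 hd r1 true false
    have c2 := hP.eg_comp s0 s1 s2 r0 hd
    have c3 := hP.eg_comp s0 s2 s3 (r0.trans hd) r2
    have l6 := hP.eg_len s1 s2 hd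
    have l7 := hP.eg_len s0 s2 (r0.trans hd)
    have c4 := hP.quad s0 s3 s4 s5 ((r0.trans hd).trans r2) r3 r4 r5
      (hq ((r0.trans hd).trans r2) r3 r4 r5) (m := m) (by omega)
    set c := C * (2 * n + 3) with hc
    have t1 := c1.ctx (eg w false g0 g1) (eg w false g2 g3 ++ (eg w true g3 g4 ++
      (eg w false g4 g5 ++ eg w true g5 g0))) (m := m) (by simp only [List.length_append]; omega)
    have t2 := c2.right (eg w false g2 g3 ++ (eg w true g3 g4 ++
      (eg w false g4 g5 ++ eg w true g5 g0))) (m := m) (by simp only [List.length_append]; omega)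
    have t3 := c3.right (eg w true g3 g4 ++
      (eg w false g4 g5 ++ eg w true g5 g0)) (m := m) (by simp only [List.length_append]; omega)
    simp only [List.append_assoc] at t1 t2 t3 c4 ⊢
    exact t1.trans (t2.trans (t3.trans c4))
  · have c1 := hP.eg_conv s2 s3 r2 hd false true
    have c2 := hP.eg_comp s1 s2 s3 r1 hd
    have c3 := hP.eg_comp s1 s3 s4 (r1.trans hd) r3
    have l6 := hP.eg_len s2 s3 hd
    have l7 := hP.eg_len s1 s3 (r1.trans hd)
    have c4 := hP.quad s0 s1 s4 s5 r0 ((r1.trans hd).trans r3) r4 r5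
      (hq r0 ((r1.trans hd).trans r3) r4 r5) (m := m) (by omega)
    set c := C * (2 * n + 3) with hc
    have t1 := c1.ctx (eg w false g0 g1 ++ eg w true g1 g2) (eg w true g3 g4 ++
      (eg w false g4 g5 ++ eg w true g5 g0)) (m := m) (by simp only [List.length_append]; omega)
    have t2 := c2.ctx (eg w false g0 g1) (eg w true g3 g4 ++
      (eg w false g4 g5 ++ eg w true g5 g0)) (m := m) (by simp only [List.length_append]; omega)
    have t3 := c3.ctx (eg w false g0 g1)
      (eg w false g4 g5 ++ eg w true g5 g0) (m := m) (by simp only [List.length_append]; omega)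
    simp only [List.append_assoc] at t1 t2 t3 c4 ⊢
    exact t1.trans (t2.trans (t3.trans c4))
  · have c1 := hP.eg_conv s3 s4 hd r3 true false
    have c2 := hP.eg_comp s2 s3 s4 r2 hd
    have c3 := hP.eg_comp s2 s4 s5 (r2.trans hd) r4
    have l6 := hP.eg_len s3 s4 hd
    have l7 := hP.eg_len s2 s4 (r2.trans hd)
    have c4 := hP.quad s0 s1 s2 s5 r0 r1 ((r2.trans hd).trans r4) r5
      (hq r0 r1 ((r2.trans hd).trans r4) r5) (m := m) (by omega)
    set c := C * (2 * n + 3) with hc
    have t1 := c1.ctx (eg w false g0 g1 ++ (eg w true g1 g2 ++ eg w false g2 g3))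
      (eg w false g4 g5 ++ eg w true g5 g0) (m := m) (by simp only [List.length_append]; omega)
    have t2 := c2.ctx (eg w false g0 g1 ++ eg w true g1 g2)
      (eg w false g4 g5 ++ eg w true g5 g0) (m := m) (by simp only [List.length_append]; omega)
    have t3 := c3.ctx (eg w false g0 g1 ++ eg w true g1 g2)
      (eg w true g5 g0) (m := m) (by simp only [List.length_append]; omega)
    simp only [List.append_assoc] at t1 t2 t3 c4 ⊢
    exact t1.trans (t2.trans (t3.trans c4))

end Par

end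

end Pool.Agent.H68.SLF
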